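import Pool.Agent.H32.PRL.Graph
import Pool.Agent.H75.PRL.S4

/-!
# Rows FLP and PAR
-/

set_option linter.unusedSectionVars false

namespace Pool.PRL

open Finset Module

section

variable {T : Type} [Fintype T] [DecidableEq T]

/-- The subgroup as a subspace. -/
def toSub (M : AddSubgroup (T → Ty)) : Submodule (ZMod 2) (PRX.VT T) :=
  AddSubgroup.toZModSubmodule 2 M

lemma mem_toSub {M : AddSubgroup (T → Ty)} {m : T → Ty} : m ∈ toSub M ↔ m ∈ M := Iff.rfl

lemma mem_LS_iff {D : Finset T} {m : T → Ty} : m ∈ LS D ↔ m ∈ PRX.LD Dᶜ := by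
  rw [PRX.mem_LD]
  constructor
  · intro h v
    have := h v
    by_cases hv : v ∈ D
    · rw [if_pos hv] at this
      simp [hv, this]
    · rw [if_neg hv] at this
      simp [hv, this]
  · intro h v
    have := h v
    by_cases hv : v ∈ D
    · rw [if_pos hv]
      exact this.2 (by simpa using hv)
    · rw [if_neg hv]
      exact this.1 (by simpa using hv)

lemma mem_inter_iff {M : AddSubgroup (T → Ty)} {D : Finset T} {m : T → Ty} :
    (m ∈ M ∧ m ∈ LS D) ↔ m ∈ toSub M ⊓ PRX.LD Dᶜ := by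
  rw [Submodule.mem_inf, mem_toSub, mem_LS_iff]

lemma ncard_inter (M : AddSubgroup (T → Ty)) (D : Finset T) :
    {m | m ∈ M ∧ m ∈ LS D}.ncard = 2 ^ PRX.rk (toSub M) Dᶜ := by
  classical
  have h := PRX.card_Wf (toSub M) Dᶜ
  rw [← h, ← Set.ncard_coe_finset]
  congr 1
  ext m
  simp only [Set.mem_ofPred_eq, PRX.Wf, coe_filter, mem_univ, true_and]
  exact mem_inter_iff

lemma finrank_toSub {M : AddSubgroup (T → Ty)} {k : ℕ} (h : Nat.card M = 2 ^ k) :
    finrank (ZMod 2) (toSub M) = k := by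
  have h1 := Module.natCard_eq_pow_finrank (K := ZMod 2) (V := toSub M)
  rw [Nat.card_zmod] at h1
  have h2 : Nat.card (toSub M) = Nat.card M := rfl
  rw [h2, h] at h1
  exact (Nat.pow_right_injective le_rfl h1).symm

lemma us_iff {M : AddSubgroup (T → Ty)} {D : Finset T} {v : T} :
    PRX.Us (toSub M) Dᶜ v ↔ ∃ m ∈ M, m ∈ LS D ∧ m v ≠ 0 := by
  constructor
  · rintro ⟨m, hm, hv⟩
    have := mem_inter_iff.mpr hm
    exact ⟨m, this.1, this.2, hv⟩
  · rintro ⟨m, hm, hm2, hv⟩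
    exact ⟨m, mem_inter_iff.mp ⟨hm, hm2⟩, hv⟩

lemma flipS {M : AddSubgroup (T → Ty)} (hM : ∀ m ∈ M, qf m = 0)
    (hk : Nat.card M = 2 ^ Fintype.card T) {D : Finset T} {v : T} (hv : v ∉ D) :
    (PRX.Us (toSub M) Dᶜ v ∧ ¬ PRX.Us (toSub M) (insert v D)ᶜ v ∧
        PRX.rk (toSub M) Dᶜ = PRX.rk (toSub M) (insert v D)ᶜ + 1) ∨
      (¬ PRX.Us (toSub M) Dᶜ v ∧ PRX.Us (toSub M) (insert v D)ᶜ v ∧
        PRX.rk (toSub M) (insert v D)ᶜ = PRX.rk (toSub M) Dᶜ + 1) := by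
  have h := PRX.flip_tg (M := toSub M) (fun m hm => hM m hm) (finrank_toSub hk) Dᶜ v
  have e : PRX.tg Dᶜ v = (insert v D)ᶜ := by
    rw [← PRX.tg_compl, PRX.tg, if_neg hv]
  rw [e] at h
  exact h

end

/-- FLP. -/
theorem flp : FLPStmt := by
  intro T _ _ M hM hk D v hv
  have h := flipS hM hk hv
  rw [ncard_inter, ncard_inter]
  constructor
  · intro hex
    have hu : PRX.Us (toSub M) Dᶜ v := us_iff.mpr hex
    rcases h with ⟨_, b, c⟩ | ⟨a, _, _⟩
    · refine ⟨by rw [c, pow_succ, mul_comm], fun m hm hm2 => ?_⟩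
      by_contra hne
      exact b (us_iff.mpr ⟨m, hm, hm2, hne⟩)
    · exact absurd hu a
  · intro hall
    have hu : ¬ PRX.Us (toSub M) Dᶜ v := by
      intro hh
      obtain ⟨m, hm, hm2, hne⟩ := us_iff.mp hh
      exact hne (hall m hm hm2)
    rcases h with ⟨a, _, _⟩ | ⟨_, b, c⟩
    · exact absurd a hu
    · exact ⟨by rw [c, pow_succ, mul_comm], us_iff.mp b⟩

/-- PAR. -/
theorem par : PARStmt := by
  intro T _ _ M hM hk
  refine ⟨PRX.rk (toSub M) ∅ + Fintype.card T, fun D => ⟨PRX.rk (toSub M) Dᶜ, ncard_inter M D, ?_⟩⟩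
  have h := PRX.rk_parity (M := toSub M) (fun m hm => hM m hm) (finrank_toSub hk) Dᶜ
  have h2 : Dᶜ.card + D.card = Fintype.card T := by
    rw [card_compl]; exact Nat.sub_add_cancel (card_le_univ D)
  rw [Nat.even_iff]
  omega

end Pool.PRL
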