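import Pool.Agent.H32.PRL.FLP
import Pool.Agent.H25.PRD.Iden

/-!
# Row SLC: the law on two adjacent slices
-/

set_option linter.unusedSectionVars false

namespace Pool.PRL

open Finset Module

section

variable {T : Type} [Fintype T] [DecidableEq T]

lemma mem_sl {T1 D2 D : Finset T} {j : ℕ} : D ∈ sl T1 D2 j ↔ D \ T1 = D2 ∧ (D ∩ T1).card = j := by
  simp [sl]

lemma card_sl' {T1 D2 : Finset T} (hd : Disjoint T1 D2) (j : ℕ) :
    (sl T1 D2 j).card = T1.card.choose j := by
  rw [← card_powersetCard]
  refine card_bij' (fun D _ => D ∩ T1) (fun S _ => S ∪ D2) ?_ ?_ ?_ ?_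
  · intro D hD
    rw [mem_sl] at hD
    rw [mem_powersetCard]
    exact ⟨inter_subset_right, hD.2⟩
  · intro S hS
    rw [mem_powersetCard] at hS
    rw [mem_sl]
    constructor
    · rw [union_sdiff_distrib, sdiff_eq_empty_iff_subset.mpr hS.1, empty_union]
      exact sdiff_eq_self_of_disjoint hd.symm
    · rw [union_inter_distrib_right, inter_eq_left.mpr hS.1, disjoint_iff_inter_eq_empty.mp hd.symm,
        union_empty]
      exact hS.2
  · intro D hD
    rw [mem_sl] at hD
    show D ∩ T1 ∪ D2 = D
    rw [← hD.1]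
    ext v; simp only [mem_union, mem_inter, mem_sdiff]; tauto
  · intro S hS
    rw [mem_powersetCard] at hS
    show (S ∪ D2) ∩ T1 = S
    rw [union_inter_distrib_right, inter_eq_left.mpr hS.1, disjoint_iff_inter_eq_empty.mp hd.symm,
      union_empty]

/-- Directions. -/
def Adir (T1 : Finset T) (j : ℕ) (D : Finset T) : Finset T :=
  if (D ∩ T1).card = j then T1 \ D else D ∩ T1

lemma reg_sl {T1 D2 : Finset T} (hd : Disjoint T1 D2) {j : ℕ} (hT : T1.card = 2 * j + 1) :
    PRX.Reg (sl T1 D2 j ∪ sl T1 D2 (j + 1)) (Adir T1 j) (j + 1) where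
  card := by
    intro D hD
    rw [mem_union, mem_sl, mem_sl] at hD
    by_cases h : (D ∩ T1).card = j
    · rw [Adir, if_pos h]
      have h2 := card_sdiff_add_card_inter T1 D
      rw [inter_comm, h, hT] at h2
      omega
    · rw [Adir, if_neg h]
      rcases hD with hD | hD
      · exact absurd hD.2 h
      · exact hD.2
  pos := Nat.succ_pos j
  ne := by
    have h : (sl T1 D2 j).Nonempty := by
      rw [← card_pos, card_sl' hd]
      exact Nat.choose_pos (by omega)
    exact h.mono subset_union_left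
  tgL := by
    intro D hD P hP
    rw [mem_union, mem_sl, mem_sl] at hD ⊢
    by_cases h : (D ∩ T1).card = j
    · rw [Adir, if_pos h, mem_sdiff] at hP
      have e : PRX.tg D P = insert P D := if_neg hP.2
      right
      rw [e, insert_sdiff_of_mem _ hP.1, insert_inter_of_mem hP.1, card_insert_of_notMem
        (fun h' => hP.2 (mem_inter.mp h').1), h]
      rcases hD with hD | hD
      · exact ⟨hD.1, rfl⟩
      · exact ⟨hD.1, rfl⟩
    · rw [Adir, if_neg h, mem_inter] at hP
      have e : PRX.tg D P = D.erase P := if_pos hP.1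
      left
      rcases hD with hD | hD
      · exact absurd hD.2 h
      · rw [e]
        constructor
        · rw [← hD.1]
          ext v; simp only [mem_sdiff, mem_erase]
          constructor
          · rintro ⟨⟨_, a⟩, b⟩; exact ⟨a, b⟩
          · rintro ⟨a, b⟩; exact ⟨⟨fun hv => b (hv ▸ hP.2), a⟩, b⟩
        · rw [erase_inter, card_erase_of_mem (mem_inter.mpr hP), hD.2]; rfl
  tgA := by
    intro D hD P hP
    by_cases h : (D ∩ T1).card = j
    · rw [Adir, if_pos h, mem_sdiff] at hP
      have e : PRX.tg D P = insert P D := if_neg hP.2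
      have e2 : ¬ (insert P D ∩ T1).card = j := by
        rw [insert_inter_of_mem hP.1, card_insert_of_notMem
          (fun h' => hP.2 (mem_inter.mp h').1), h]; omega
      rw [e, Adir, if_neg e2, mem_inter]
      exact ⟨mem_insert_self _ _, hP.1⟩
    · rw [mem_union, mem_sl, mem_sl] at hD
      rw [Adir, if_neg h, mem_inter] at hP
      have e : PRX.tg D P = D.erase P := if_pos hP.1
      rcases hD with hD | hD
      · exact absurd hD.2 h
      · have e2 : (D.erase P ∩ T1).card = j := by
          rw [erase_inter, card_erase_of_mem (mem_inter.mpr hP), hD.2]; rfl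
        rw [e, Adir, if_pos e2, mem_sdiff]
        exact ⟨hP.2, notMem_erase P D⟩

lemma sup_eq (m : T → Ty) (A : Finset T) : PRX.sup m A = supp m ∩ A := by
  ext v
  simp only [PRX.sup, supp, mem_filter, mem_inter, mem_univ, true_and]
  tauto

end

/-- SLC. -/
theorem slc : SLCStmt := by
  classical
  intro ε hε
  refine ⟨0, ε / 144, by positivity, ?_⟩
  intro T _ _ T1 D2 j hd hT _ M hM hk hbad R
  set η := ε / 144 with hη
  have hη0 : 0 < η := by positivity
  have hreg := reg_sl hd hT
  set L := sl T1 D2 j ∪ sl T1 D2 (j + 1) with hL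
  have hN : (0 : ℝ) < ((2 * j + 1).choose j : ℝ) := by
    exact_mod_cast Nat.choose_pos (by omega)
  have hcard : (L.card : ℝ) = 2 * ((2 * j + 1).choose j : ℝ) := by
    have h1 : Disjoint (sl T1 D2 j) (sl T1 D2 (j + 1)) := by
      rw [disjoint_left]
      intro D h1 h2
      rw [mem_sl] at h1 h2
      omega
    have h2 : (2 * j + 1).choose (j + 1) = (2 * j + 1).choose j := by
      rw [← Nat.choose_symm (by omega : j + 1 ≤ 2 * j + 1)]
      congr 1; omega
    rw [hL, card_union_of_disjoint h1, card_sl' hd, card_sl' hd, hT, h2]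
    push_cast; ring
  have hbad' : ((L.filter fun D => ¬ PRX.Bal (2 * η) (toSub M) Dᶜ (Adir T1 j D)).card : ℝ) ≤
      (η / 2) * L.card := by
    rw [hcard]
    have e : (η / 2) * (2 * ((2 * j + 1).choose j : ℝ)) = η * ((2 * j + 1).choose j : ℝ) := by ring
    rw [e]
    refine le_trans ?_ hbad
    rw [← Set.ncard_coe_finset]
    have hfin : {D | D ∈ L ∧ ∃ m ∈ M, m ≠ 0 ∧ m ∈ LS D ∧ ¬ Bal η T1 D m}.Finite :=
      Set.toFinite _
    refine Nat.cast_le.mpr (Set.ncard_le_ncard ?_ hfin)
    intro D hD
    rw [mem_coe, mem_filter] at hD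
    obtain ⟨hDL, hB⟩ := hD
    refine ⟨hDL, ?_⟩
    rw [PRX.Bal] at hB
    push Not at hB
    obtain ⟨m, hm, hm0, hlt⟩ := hB
    have hm' := mem_inter_iff.mpr hm
    refine ⟨m, hm'.1, hm0, hm'.2, ?_⟩
    intro hbal
    rw [sup_eq, hreg.card D hDL] at hlt
    have hle : η * T1.card ≤ 2 * η * ((j + 1 : ℕ) : ℝ) := by
      rw [hT]; push_cast; nlinarith
    rw [mem_union, mem_sl, mem_sl] at hDL
    by_cases h : (D ∩ T1).card = j
    · have e1 : Adir T1 j D = T1 \ D := if_pos h
      rw [e1] at hlt
      have h3 := hbal.2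
      have h4 : (T1 \ D).card = j + 1 := by
        have h2 := card_sdiff_add_card_inter T1 D
        rw [inter_comm, h, hT] at h2
        omega
      rw [h4] at h3
      linarith
    · have e1 : Adir T1 j D = D ∩ T1 := if_neg h
      rw [e1] at hlt
      have h3 := hbal.1
      have h4 : (D ∩ T1).card = j + 1 := by
        rcases hDL with hD | hD
        · exact absurd hD.2 h
        · exact hD.2
      rw [h4] at h3
      linarith
  have hfin := PRX.graph_law (M := toSub M) (fun m hm => hM m hm) (finrank_toSub hk) hreg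
    (by positivity : (0 : ℝ) ≤ 2 * η) hbad' R
  have hterm : ∀ r ∈ range R, |({D | D ∈ L ∧
      {m | m ∈ M ∧ m ∈ LS D}.ncard = 2 ^ r}.ncard : ℝ) / ((2 * j + 1).choose j : ℝ) -
        2 * PR r| = 2 * |PRX.Z (toSub M) L r - PRD.PR r| := by
    intro r _
    have h1 : {D | D ∈ L ∧ {m | m ∈ M ∧ m ∈ LS D}.ncard = 2 ^ r}.ncard =
        (L.filter fun D => PRX.rk (toSub M) Dᶜ = r).card := by
      rw [← Set.ncard_coe_finset]
      congr 1
      ext D
      rw [Set.mem_ofPred_eq, mem_coe, mem_filter, ncard_inter]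
      refine and_congr_right fun _ => ?_
      exact ⟨fun h => Nat.pow_right_injective le_rfl h, fun h => by rw [h]⟩
    have h2 : PR r = PRD.PR r := rfl
    rw [h1, h2, PRX.Z, hcard]
    have e : ((L.filter fun D => PRX.rk (toSub M) Dᶜ = r).card : ℝ) /
        ((2 * j + 1).choose j : ℝ) - 2 * PRD.PR r =
        2 * (((L.filter fun D => PRX.rk (toSub M) Dᶜ = r).card : ℝ) /
          (2 * ((2 * j + 1).choose j : ℝ)) - PRD.PR r) := by field_simp
    rw [e, abs_mul, abs_two]
  rw [sum_congr rfl hterm, ← mul_sum]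
  have hE : 2 * (32 * (2 * η) + 16 * (η / 2)) = ε := by rw [hη]; ring
  linarith

end Pool.PRL
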