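import Pool.Agent.H32.PRL.Lag

/-!
# Chernoff bound: few `m ∈ L_D` have an unbalanced support in `A`
-/

set_option linter.unusedSectionVars false

namespace Pool.PRX

open Finset Real

variable {T : Type*} [Fintype T] [DecidableEq T]

/-- The exponential moment. -/
lemma exp_moment (A : Finset T) (l : ℝ) :
    ∑ S : Finset T, exp (l * (((S ∩ A).card : ℝ) - (A.card : ℝ) / 2)) =
      2 ^ Fintype.card T * cosh (l / 2) ^ A.card := by
  have h := Finset.prod_add (fun P : T => if P ∈ A then exp (l / 2) else 1)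
    (fun P : T => if P ∈ A then exp (-(l / 2)) else 1) univ
  have h1 : ∏ P : T, ((if P ∈ A then exp (l / 2) else 1) + (if P ∈ A then exp (-(l / 2)) else 1)) =
      2 ^ Fintype.card T * cosh (l / 2) ^ A.card := by
    have e : ∀ P : T, ((if P ∈ A then exp (l / 2) else 1) + (if P ∈ A then exp (-(l / 2)) else 1)) =
        2 * (if P ∈ A then cosh (l / 2) else 1) := by
      intro P
      by_cases hP : P ∈ A
      · simp only [hP, if_true]; rw [Real.cosh_eq]; ring
      · simp only [hP, if_false]; norm_num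
    rw [prod_congr rfl (fun P _ => e P), prod_mul_distrib, prod_const, card_univ, prod_ite_mem,
      univ_inter, prod_const]
  have h2 : ∀ S : Finset T, exp (l * (((S ∩ A).card : ℝ) - (A.card : ℝ) / 2)) =
      (∏ P ∈ S, (if P ∈ A then exp (l / 2) else 1)) *
        ∏ P ∈ univ \ S, (if P ∈ A then exp (-(l / 2)) else 1) := by
    intro S
    rw [prod_ite_mem, prod_ite_mem, prod_const, prod_const, ← exp_nat_mul, ← exp_nat_mul, ← exp_add]
    congr 1
    have hc : (((univ \ S) ∩ A).card : ℝ) = A.card - (S ∩ A).card := by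
      have e1 : (univ \ S) ∩ A = A \ (S ∩ A) := by
        ext P; simp only [mem_inter, mem_sdiff, mem_univ, true_and]; tauto
      rw [e1, card_sdiff_of_subset inter_subset_right, Nat.cast_sub (card_le_card inter_subset_right)]
    rw [hc]; ring
  rw [← h1, h, powerset_univ]
  exact sum_congr rfl fun S _ => h2 S

lemma cosh_pow_le (A : Finset T) (l : ℝ) :
    cosh (l / 2) ^ A.card ≤ exp (A.card * (l ^ 2 / 8)) := by
  have h1 : cosh (l / 2) ≤ exp ((l / 2) ^ 2 / 2) := Real.cosh_le_exp_half_sq _
  refine (pow_le_pow_left₀ (Real.cosh_pos _).le h1 _).trans ?_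
  rw [← exp_nat_mul]
  apply le_of_eq
  congr 1; ring

/-- One side of the Chernoff bound; `l` may have any sign. -/
lemma chernoff_one (A : Finset T) (l c : ℝ) :
    ((univ.filter fun S : Finset T => c ≤ l * (((S ∩ A).card : ℝ) - (A.card : ℝ) / 2)).card : ℝ) *
      exp c ≤ 2 ^ Fintype.card T * exp (A.card * (l ^ 2 / 8)) := by
  have h1 : ((univ.filter fun S : Finset T =>
      c ≤ l * (((S ∩ A).card : ℝ) - (A.card : ℝ) / 2)).card : ℝ) * exp c ≤
      ∑ S : Finset T, exp (l * (((S ∩ A).card : ℝ) - (A.card : ℝ) / 2)) := by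
    rw [← nsmul_eq_mul, ← sum_const]
    refine (sum_le_sum (g := fun S => exp (l * (((S ∩ A).card : ℝ) - (A.card : ℝ) / 2)))
      fun S hS => ?_).trans ?_
    · rw [mem_filter] at hS
      exact exp_le_exp.mpr hS.2
    · exact sum_le_sum_of_subset_of_nonneg (filter_subset _ _) fun _ _ _ => (exp_pos _).le
  refine h1.trans ?_
  rw [exp_moment]
  exact mul_le_mul_of_nonneg_left (cosh_pow_le A l) (by positivity)

/-- Chernoff bound for subsets. -/
lemma chernoff (A : Finset T) {η : ℝ} (hη : 0 ≤ η) :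
    ((univ.filter fun S : Finset T =>
      η * A.card < |((S ∩ A).card : ℝ) - (A.card : ℝ) / 2|).card : ℝ) ≤
      2 ^ Fintype.card T * (2 * exp (-(2 * η ^ 2 * A.card))) := by
  classical
  set c : ℝ := 4 * η * (η * A.card) with hc
  have h1 := chernoff_one A (4 * η) c
  have h2 := chernoff_one A (-(4 * η)) c
  have hsub : (univ.filter fun S : Finset T =>
      η * A.card < |((S ∩ A).card : ℝ) - (A.card : ℝ) / 2|) ⊆
      (univ.filter fun S : Finset T => c ≤ 4 * η * (((S ∩ A).card : ℝ) - (A.card : ℝ) / 2)) ∪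
      (univ.filter fun S : Finset T =>
        c ≤ -(4 * η) * (((S ∩ A).card : ℝ) - (A.card : ℝ) / 2)) := by
    intro S hS
    rw [mem_filter] at hS
    rw [mem_union, mem_filter, mem_filter]
    rcases abs_cases (((S ∩ A).card : ℝ) - (A.card : ℝ) / 2) with ⟨e, _⟩ | ⟨e, _⟩
    · left
      refine ⟨mem_univ _, ?_⟩
      rw [hc]
      rw [e] at hS
      exact mul_le_mul_of_nonneg_left hS.2.le (by positivity)
    · right
      refine ⟨mem_univ _, ?_⟩
      rw [e] at hS
      have := mul_le_mul_of_nonneg_left hS.2.le (by positivity : (0 : ℝ) ≤ 4 * η)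
      rw [hc]; linarith
  have h3 : ((univ.filter fun S : Finset T =>
      η * A.card < |((S ∩ A).card : ℝ) - (A.card : ℝ) / 2|).card : ℝ) ≤
      ((univ.filter fun S : Finset T =>
        c ≤ 4 * η * (((S ∩ A).card : ℝ) - (A.card : ℝ) / 2)).card : ℝ) +
      ((univ.filter fun S : Finset T =>
        c ≤ -(4 * η) * (((S ∩ A).card : ℝ) - (A.card : ℝ) / 2)).card : ℝ) := by
    exact_mod_cast (card_le_card hsub).trans (card_union_le _ _)
  have hexp : ∀ x : ℝ, x * exp c ≤ 2 ^ Fintype.card T * exp (A.card * ((4 * η) ^ 2 / 8)) →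
      x ≤ 2 ^ Fintype.card T * exp (-(2 * η ^ 2 * A.card)) := by
    intro x hx
    have e : exp (A.card * ((4 * η) ^ 2 / 8)) = exp (-(2 * η ^ 2 * A.card)) * exp c := by
      rw [← exp_add]; congr 1; rw [hc]; ring
    rw [e, ← mul_assoc] at hx
    exact le_of_mul_le_mul_right hx (exp_pos c)
  have h4 := hexp _ h1
  have h5 := hexp _ (by rw [neg_pow_two] at h2; exact h2)
  linarith

end Pool.PRX
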