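import Pool.Agent.H32.PRL.Cube
import Pool.Agent.H32.PRL.Conc

/-!
# From the first moment with types to the law for almost all members of a family
-/

set_option linter.unusedSectionVars false

namespace Pool.PRX

open Finset Module Pool.PRD

universe u v

variable {T : Type u} [Fintype T] [DecidableEq T]

open Classical in
/-- Few elements of `L_D` are unbalanced in `A`. -/
lemma card_unbal (D A : Finset T) {η : ℝ} (hη : 0 ≤ η) :
    ((univ.filter fun m : VT T => m ∈ LD D ∧
      η * A.card < |((sup m A).card : ℝ) - (A.card : ℝ) / 2|).card : ℝ) ≤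
      2 ^ Fintype.card T * (2 * Real.exp (-(2 * η ^ 2 * A.card))) := by
  refine le_trans ?_ (chernoff A hη)
  have h : (univ.filter fun m : VT T => m ∈ LD D ∧
      η * A.card < |((sup m A).card : ℝ) - (A.card : ℝ) / 2|).card ≤
      (univ.filter fun S : Finset T =>
        η * A.card < |((S ∩ A).card : ℝ) - (A.card : ℝ) / 2|).card := by
    refine card_le_card_of_injOn (fun m => univ.filter fun P => m P ≠ 0) ?_ ?_
    · intro m hm
      simp only [coe_filter, mem_univ, true_and, Set.mem_ofPred_eq] at hm ⊢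
      have e : (univ.filter fun P => m P ≠ 0) ∩ A = sup m A := by
        ext P; simp only [sup, mem_inter, mem_filter, mem_univ, true_and]; tauto
      rw [e]
      exact hm.2
    · intro m hm n hn hmn
      simp only [coe_filter, mem_univ, true_and, Set.mem_ofPred_eq] at hm hn
      funext P
      have h1 : m P ≠ 0 ↔ n P ≠ 0 := by
        have := congrArg (fun S : Finset T => P ∈ S) hmn
        simpa using this
      have hz : ∀ x : ZMod 2, x ≠ 0 → x = 1 := by decide
      by_cases hP : P ∈ D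
      · have a := (hm.1 P).1 hP
        have b := (hn.1 P).1 hP
        refine Prod.ext (a.trans b.symm) ?_
        by_cases c : m P = 0
        · have d : n P = 0 := by by_contra h; exact (h1.mpr h) c
          rw [c, d]
        · have d := h1.mp c
          rw [hz _ (fun h => c (Prod.ext a h)), hz _ (fun h => d (Prod.ext b h))]
      · have a := (hm.1 P).2 hP
        have b := (hn.1 P).2 hP
        refine Prod.ext ?_ (a.trans b.symm)
        by_cases c : m P = 0
        · have d : n P = 0 := by by_contra h; exact (h1.mpr h) c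
          rw [c, d]
        · have d := h1.mp c
          rw [hz _ (fun h => c (Prod.ext h a)), hz _ (fun h => d (Prod.ext h b))]
  exact_mod_cast h

open Classical in
/-- The average number of `D` with an unbalanced element. -/
lemma family_bad {ι : Type v} (S : Finset ι) (M : ι → Submodule (ZMod 2) (VT T)) {C : ℝ}
    (hC : 0 ≤ C)
    (hN : ∀ D : Finset T, ∀ m ∈ LD D, m ≠ 0 →
      ((S.filter fun f => m ∈ M f).card : ℝ) * 2 ^ Fintype.card T ≤ C * S.card)
    (L : Finset (Finset T)) (A : Finset T → Finset T) {a : ℝ} (ha : ∀ D ∈ L, a ≤ (A D).card)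
    {η : ℝ} (hη : 0 ≤ η) :
    ∑ f ∈ S, ((L.filter fun D => ¬ Bal η (M f) D (A D)).card : ℝ) ≤
      L.card * (C * S.card * (2 * Real.exp (-(2 * η ^ 2 * a)))) := by
  have h1 : ∑ f ∈ S, ((L.filter fun D => ¬ Bal η (M f) D (A D)).card : ℝ) =
      ∑ D ∈ L, ((S.filter fun f => ¬ Bal η (M f) D (A D)).card : ℝ) := by
    simp only [card_filter]
    push_cast
    rw [sum_comm]
  rw [h1, ← nsmul_eq_mul, ← sum_const]
  refine sum_le_sum fun D hD => ?_
  set U := univ.filter fun m : VT T => m ∈ LD D ∧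
      η * (A D).card < |((sup m (A D)).card : ℝ) - ((A D).card : ℝ) / 2| with hU
  have h2 : (S.filter fun f => ¬ Bal η (M f) D (A D)) ⊆
      (U.filter fun m => m ≠ 0).biUnion fun m => S.filter fun f => m ∈ M f := by
    intro f hf
    rw [mem_filter] at hf
    obtain ⟨hfS, hf2⟩ := hf
    rw [Bal] at hf2
    push Not at hf2
    obtain ⟨m, hm, hm0, hlt⟩ := hf2
    rw [mem_biUnion]
    refine ⟨m, ?_, ?_⟩
    · rw [mem_filter, hU, mem_filter]
      exact ⟨⟨mem_univ _, hm.2, hlt⟩, hm0⟩
    · rw [mem_filter]; exact ⟨hfS, hm.1⟩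
  have h3 : ((S.filter fun f => ¬ Bal η (M f) D (A D)).card : ℝ) ≤
      ∑ m ∈ U.filter (fun m => m ≠ 0), ((S.filter fun f => m ∈ M f).card : ℝ) := by
    exact_mod_cast (card_le_card h2).trans card_biUnion_le
  have hp : (0 : ℝ) < 2 ^ Fintype.card T := by positivity
  have h4 : ∑ m ∈ U.filter (fun m => m ≠ 0), ((S.filter fun f => m ∈ M f).card : ℝ) ≤
      ∑ m ∈ U.filter (fun m => m ≠ 0), (C * S.card / 2 ^ Fintype.card T) := by
    refine sum_le_sum fun m hm => ?_
    rw [mem_filter, hU, mem_filter] at hm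
    rw [le_div_iff₀ hp]
    exact hN D m hm.1.2.1 hm.2
  rw [sum_const, nsmul_eq_mul] at h4
  have h5 : ((U.filter fun m => m ≠ 0).card : ℝ) ≤
      2 ^ Fintype.card T * (2 * Real.exp (-(2 * η ^ 2 * a))) := by
    have h6 : ((U.filter fun m => m ≠ 0).card : ℝ) ≤ U.card := by
      exact_mod_cast card_filter_le _ _
    refine h6.trans ((card_unbal D (A D) hη).trans ?_)
    refine mul_le_mul_of_nonneg_left (mul_le_mul_of_nonneg_left (Real.exp_le_exp.mpr ?_)
      (by norm_num)) hp.le
    have := mul_le_mul_of_nonneg_left (ha D hD) (by positivity : (0 : ℝ) ≤ 2 * η ^ 2)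
    linarith
  have hnn : (0 : ℝ) ≤ C * S.card / 2 ^ Fintype.card T := by positivity
  calc ((S.filter fun f => ¬ Bal η (M f) D (A D)).card : ℝ)
      ≤ ((U.filter fun m => m ≠ 0).card : ℝ) * (C * S.card / 2 ^ Fintype.card T) := h3.trans h4
    _ ≤ (2 ^ Fintype.card T * (2 * Real.exp (-(2 * η ^ 2 * a)))) *
        (C * S.card / 2 ^ Fintype.card T) := mul_le_mul_of_nonneg_right h5 hnn
    _ = C * S.card * (2 * Real.exp (-(2 * η ^ 2 * a))) := by field_simp

open Classical in
/-- Markov. -/
lemma markov {ι : Type v} (S : Finset ι) (g : ι → ℝ) (hg : ∀ f, 0 ≤ g f) {t B : ℝ} (ht : 0 < t)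
    (h : ∑ f ∈ S, g f ≤ B) : ((S.filter fun f => ¬ g f ≤ t).card : ℝ) ≤ B / t := by
  rw [le_div_iff₀ ht]
  refine le_trans ?_ h
  rw [← nsmul_eq_mul, ← sum_const]
  refine (sum_le_sum fun f hf => ?_).trans
    (sum_le_sum_of_subset_of_nonneg (filter_subset _ S) fun f _ _ => hg f)
  rw [mem_filter, not_le] at hf
  exact hf.2.le

open Classical in
/-- Most members have few bad `D` in `L`. -/
lemma family_few {ι : Type v} (S : Finset ι) (M : ι → Submodule (ZMod 2) (VT T)) {C : ℝ}
    (hC : 0 ≤ C)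
    (hN : ∀ D : Finset T, ∀ m ∈ LD D, m ≠ 0 →
      ((S.filter fun f => m ∈ M f).card : ℝ) * 2 ^ Fintype.card T ≤ C * S.card)
    (L : Finset (Finset T)) (hL : L.Nonempty) (A : Finset T → Finset T) {a : ℝ}
    (ha : ∀ D ∈ L, a ≤ (A D).card) {η δ : ℝ} (hη : 0 ≤ η) (hδ : 0 < δ) :
    ((S.filter fun f => ¬ ((L.filter fun D => ¬ Bal η (M f) D (A D)).card : ℝ) ≤
      δ * L.card).card : ℝ) ≤ C / δ * (2 * Real.exp (-(2 * η ^ 2 * a))) * S.card := by
  have hL' : (0 : ℝ) < L.card := by exact_mod_cast hL.card_pos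
  refine (markov S (fun f => ((L.filter fun D => ¬ Bal η (M f) D (A D)).card : ℝ))
    (fun f => Nat.cast_nonneg _) (mul_pos hδ hL') (family_bad S M hC hN L A ha hη)).trans ?_
  apply le_of_eq
  field_simp

/-- The law: on the cube, half parity, and on all slices `β k ≤ j ≤ (1-β) k`. -/
def Law (ε β : ℝ) (M : Submodule (ZMod 2) (VT T)) : Prop :=
  (∀ R, ∑ r ∈ range R, |Y M r - PR r| ≤ ε) ∧
  2 * (univ.filter fun D => rk M D % 2 = 0).card = 2 ^ Fintype.card T ∧
  ∀ j : ℕ, β * Fintype.card T ≤ j → (j : ℝ) ≤ (1 - β) * Fintype.card T → ∀ R,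
    ∑ r ∈ range R, |X M j r - if r % 2 = (rk M ∅ + j) % 2 then 2 * PR r else 0| ≤ ε

lemma exists_k0 {C δ η β ε : ℝ} (hδ : 0 < δ) (hη : 0 < η) (hβ : 0 < β) (hε : 0 < ε) :
    ∃ k0 : ℕ, ∀ k ≥ k0, C / δ * (2 * Real.exp (-(2 * η ^ 2 * (β * k)))) * (2 * k + 1) ≤ ε := by
  have hc : 0 < 2 * η ^ 2 * β := by positivity
  have h1 : Filter.Tendsto (fun k : ℕ => ((k : ℝ)) * Real.exp (-(2 * η ^ 2 * β) * k))
      Filter.atTop (nhds 0) := by
    have := (Real.tendsto_pow_mul_exp_neg_atTop_nhds_zero 1).comp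
      (tendsto_natCast_atTop_atTop (R := ℝ) |>.const_mul_atTop hc)
    have h2 := this.const_mul (1 / (2 * η ^ 2 * β))
    rw [mul_zero] at h2
    refine h2.congr fun k => ?_
    simp only [Function.comp, pow_one]
    rw [neg_mul]
    field_simp
  have h0 : Filter.Tendsto (fun k : ℕ => Real.exp (-(2 * η ^ 2 * β) * k))
      Filter.atTop (nhds 0) := by
    have := Real.tendsto_exp_neg_atTop_nhds_zero.comp
      (tendsto_natCast_atTop_atTop (R := ℝ) |>.const_mul_atTop hc)
    refine this.congr fun k => ?_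
    simp only [Function.comp]
    rw [neg_mul]
  have h3 : Filter.Tendsto (fun k : ℕ => C / δ * (2 * Real.exp (-(2 * η ^ 2 * (β * k)))) *
      (2 * k + 1)) Filter.atTop (nhds 0) := by
    have := ((h1.const_mul (4 * (C / δ))).add (h0.const_mul (2 * (C / δ))))
    rw [mul_zero, mul_zero, add_zero] at this
    refine this.congr fun k => ?_
    have e : -(2 * η ^ 2 * (β * k)) = -(2 * η ^ 2 * β) * k := by ring
    rw [e]; ring
  obtain ⟨k0, hk0⟩ := Filter.eventually_atTop.mp (h3.eventually (gt_mem_nhds hε))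
  exact ⟨k0, fun k hk => (hk0 k hk).le⟩

lemma mem_LD_of_free {m : VT T} (h : ∀ P, (m P).1 * (m P).2 = 0) :
    ∃ D : Finset T, m ∈ LD D := by
  refine ⟨univ.filter fun P => (m P).1 = 0, fun P => ?_⟩
  simp only [mem_filter, mem_univ, true_and]
  exact ⟨fun h' => h', fun h' => (mul_eq_zero.mp (h P)).resolve_left h'⟩

lemma free_of_mem_LD {D : Finset T} {m : VT T} (h : m ∈ LD D) (P : T) :
    (m P).1 * (m P).2 = 0 := by
  by_cases hP : P ∈ D
  · rw [(h P).1 hP, zero_mul]
  · rw [(h P).2 hP, mul_zero]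

end Pool.PRX

namespace Pool.PRX

open Finset Module Pool.PRD

universe u v

open Classical in
/-- FAMILY LAW. If the images `M f` are Lagrangian for the `f` with `G f`, and every fixed nonzero
vector without a coordinate `c = (1,1)` lies in `M f` for at most `C 2^-k #S` of the `f`, then the
law holds for all but `#{¬ G} + ε #S` of the `f`. -/
theorem family_law {C ε β : ℝ} (hC : 0 < C) (hε : 0 < ε) (hβ : 0 < β) :
    ∃ k0 : ℕ, ∀ (T : Type u) [Fintype T] [DecidableEq T], k0 ≤ Fintype.card T →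
      ∀ (ι : Type v) (S : Finset ι) (M : ι → Submodule (ZMod 2) (VT T)) (G : ι → Prop),
      (∀ f ∈ S, G f → (∀ m ∈ M f, qf m = 0) ∧ finrank (ZMod 2) (M f) = Fintype.card T) →
      (∀ m : VT T, m ≠ 0 → (∀ P, (m P).1 * (m P).2 = 0) →
        ((S.filter fun f => m ∈ M f).card : ℝ) * 2 ^ Fintype.card T ≤ C * S.card) →
      ((S.filter fun f => ¬ (G f ∧ Law ε β (M f))).card : ℝ) ≤
        ((S.filter fun f => ¬ G f).card : ℝ) + ε * S.card := by
  set η := ε / 200 with hη
  set δ := ε / 200 with hδ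
  have hη0 : 0 < η := by positivity
  have hδ0 : 0 < δ := by positivity
  obtain ⟨k1, hk1⟩ := exists_k0 (C := C) (δ := δ) (η := η) (β := min β 1) (ε := ε) hδ0 hη0
    (lt_min hβ one_pos) hε
  refine ⟨max k1 1, fun T _ _ hT ι S M G hG hN => ?_⟩
  set k := Fintype.card T with hk
  have hk1' : k1 ≤ k := (le_max_left _ _).trans hT
  have hk0 : 0 < k := lt_of_lt_of_le one_pos ((le_max_right _ _).trans hT)
  have hN' : ∀ D : Finset T, ∀ m ∈ LD D, m ≠ 0 →
      ((S.filter fun f => m ∈ M f).card : ℝ) * 2 ^ Fintype.card T ≤ C * S.card :=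
    fun D m hm hm0 => hN m hm0 (free_of_mem_LD hm)
  -- the exceptional sets
  let bad (L : Finset (Finset T)) (A : Finset T → Finset T) : Finset ι :=
    S.filter fun f => ¬ ((L.filter fun D => ¬ Bal η (M f) D (A D)).card : ℝ) ≤ δ * L.card
  set b := C / δ * (2 * Real.exp (-(2 * η ^ 2 * (min β 1 * k)))) * S.card with hb
  have hb0 : 0 ≤ b := by positivity
  have hbad : ∀ (L : Finset (Finset T)) (A : Finset T → Finset T), L.Nonempty →
      (∀ D ∈ L, min β 1 * k ≤ (A D).card) → ((bad L A).card : ℝ) ≤ b := by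
    intro L A hL hA
    exact family_few S M hC.le hN' L hL A hA hη0.le hδ0
  have hSl : ∀ j ≤ k, (Sl T j).Nonempty := by
    intro j hj
    rw [← card_pos, card_Sl]
    exact Nat.choose_pos hj
  -- range of admissible j
  set J : Finset ℕ := (range k).filter fun j : ℕ => β * k ≤ (j : ℝ) ∧ (j : ℝ) ≤ (1 - β) * k with hJ
  have hcover : (S.filter fun f => ¬ (G f ∧ Law ε β (M f))) ⊆
      (S.filter fun f => ¬ G f) ∪ (bad univ (fun _ => univ) ∪
        ((J.biUnion fun j => bad (Sl T j) fun D => Dᶜ) ∪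
          (J.biUnion fun j => bad (Sl T (j + 1)) fun D => D))) := by
    intro f hf
    rw [mem_filter] at hf
    obtain ⟨hfS, hf2⟩ := hf
    by_contra hcon
    simp only [mem_union, mem_biUnion, not_or, not_exists, not_and] at hcon
    obtain ⟨c1, c2, c3, c4⟩ := hcon
    have g1 : G f := by
      by_contra h; exact c1 (mem_filter.mpr ⟨hfS, h⟩)
    obtain ⟨hM, hfr⟩ := hG f hfS g1
    refine hf2 ⟨g1, ?_, ?_, ?_⟩
    · have h2 : ((univ.filter fun D => ¬ Bal η (M f) D univ).card : ℝ) ≤
          δ * 2 ^ Fintype.card T := by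
        by_contra h
        apply c2
        refine mem_filter.mpr ⟨hfS, ?_⟩
        rw [card_univ, Fintype.card_finset]
        push_cast
        exact h
      intro R
      refine (cube_law hM hfr hk0 hη0.le h2 R).trans ?_
      rw [hη, hδ]; linarith
    · exact cube_parity hM hfr hk0
    · intro j hj1 hj2 R
      have hjk : j < k := by
        have h3 : (j : ℝ) < k := by
          have : (0 : ℝ) < k := by exact_mod_cast hk0
          nlinarith
        exact_mod_cast h3
      have hjJ : j ∈ J := by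
        rw [hJ, mem_filter, mem_range]; exact ⟨hjk, hj1, hj2⟩
      have h3 : (((Sl T j).filter fun D => ¬ Bal η (M f) D Dᶜ).card : ℝ) ≤
          δ * (Fintype.card T).choose j := by
        by_contra h
        apply c3 j hjJ
        refine mem_filter.mpr ⟨hfS, ?_⟩
        rw [card_Sl]
        exact h
      have h4 : (((Sl T (j + 1)).filter fun D => ¬ Bal η (M f) D D).card : ℝ) ≤
          δ * (Fintype.card T).choose (j + 1) := by
        by_contra h
        apply c4 j hjJ
        refine mem_filter.mpr ⟨hfS, ?_⟩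
        rw [card_Sl]
        exact h
      refine (slice_law hM hfr hjk hη0.le h3 h4 R).1.trans ?_
      rw [hη, hδ]; linarith
  have hk0' : (0 : ℝ) < k := by exact_mod_cast hk0
  have e1 : ((bad univ (fun _ => univ)).card : ℝ) ≤ b := by
    refine hbad _ _ univ_nonempty fun D _ => ?_
    rw [card_univ, ← hk]
    nlinarith [min_le_right β 1]
  have hJk : (J.card : ℝ) ≤ k := by
    have : J.card ≤ k := (card_filter_le _ _).trans (by rw [card_range])
    exact_mod_cast this
  have e2 : ((J.biUnion fun j => bad (Sl T j) fun D => Dᶜ).card : ℝ) ≤ k * b := by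
    have h5 : ((J.biUnion fun j => bad (Sl T j) fun D => Dᶜ).card : ℝ) ≤
        ∑ j ∈ J, ((bad (Sl T j) fun D => Dᶜ).card : ℝ) := by exact_mod_cast card_biUnion_le
    refine h5.trans ((sum_le_sum fun j hj => ?_).trans
      (by rw [sum_const, nsmul_eq_mul]; exact mul_le_mul_of_nonneg_right hJk hb0))
    rw [hJ, mem_filter, mem_range] at hj
    refine hbad _ _ (hSl j hj.1.le) fun D hD => ?_
    rw [mem_Sl] at hD
    rw [card_compl, hD, ← hk, Nat.cast_sub hj.1.le]
    have := mul_le_mul_of_nonneg_right (min_le_left β 1) hk0'.le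
    linarith [hj.2.2]
  have e3 : ((J.biUnion fun j => bad (Sl T (j + 1)) fun D => D).card : ℝ) ≤ k * b := by
    have h5 : ((J.biUnion fun j => bad (Sl T (j + 1)) fun D => D).card : ℝ) ≤
        ∑ j ∈ J, ((bad (Sl T (j + 1)) fun D => D).card : ℝ) := by exact_mod_cast card_biUnion_le
    refine h5.trans ((sum_le_sum fun j hj => ?_).trans
      (by rw [sum_const, nsmul_eq_mul]; exact mul_le_mul_of_nonneg_right hJk hb0))
    rw [hJ, mem_filter, mem_range] at hj
    refine hbad _ _ (hSl (j + 1) hj.1) fun D hD => ?_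
    rw [mem_Sl] at hD
    rw [hD]
    push_cast
    have := mul_le_mul_of_nonneg_right (min_le_left β 1) hk0'.le
    linarith [hj.2.1]
  have e4 : ((S.filter fun f => ¬ (G f ∧ Law ε β (M f))).card : ℝ) ≤
      ((S.filter fun f => ¬ G f).card : ℝ) + (((bad univ (fun _ => univ)).card : ℝ) +
        (((J.biUnion fun j => bad (Sl T j) fun D => Dᶜ).card : ℝ) +
          ((J.biUnion fun j => bad (Sl T (j + 1)) fun D => D).card : ℝ))) := by
    have := (card_le_card hcover).trans ((card_union_le _ _).trans (Nat.add_le_add_left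
      ((card_union_le _ _).trans (Nat.add_le_add_left (card_union_le _ _) _)) _))
    exact_mod_cast this
  have e5 := hk1 k hk1'
  have e6 : b * (2 * k + 1) ≤ ε * S.card := by
    have := mul_le_mul_of_nonneg_right e5 (Nat.cast_nonneg (α := ℝ) S.card)
    rw [hb]
    linarith
  linarith

end Pool.PRX
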