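import Pool.Agent.H32.PRL.Lag

/-!
# Supports of the elements of `M ∩ L_D`
-/

set_option linter.unusedSectionVars false

namespace Pool.PRX

open Finset Module

variable {T : Type*} [Fintype T] [DecidableEq T]

open Classical in
/-- The elements of `M ∩ L_D`. -/
noncomputable def Wf (M : Submodule (ZMod 2) (VT T)) (D : Finset T) : Finset (VT T) :=
  univ.filter fun m => m ∈ M ⊓ LD D

open Classical in
/-- The support of `m` in `A`. -/
noncomputable def sup (m : VT T) (A : Finset T) : Finset T := A.filter fun P => m P ≠ 0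

open Classical in
/-- The places of `A` in the support of some element of `M ∩ L_D`. -/
noncomputable def Uf (M : Submodule (ZMod 2) (VT T)) (D A : Finset T) : Finset T :=
  A.filter fun P => Us M D P

lemma card_filter_submodule (W : Submodule (ZMod 2) (VT T)) [DecidablePred fun m => m ∈ W] :
    (univ.filter fun m => m ∈ W).card = 2 ^ finrank (ZMod 2) W := by
  have h := Module.card_eq_pow_finrank (K := ZMod 2) (V := W)
  rw [ZMod.card] at h
  rw [← h, Fintype.card_subtype]

lemma card_Wf (M : Submodule (ZMod 2) (VT T)) (D : Finset T) :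
    (Wf M D).card = 2 ^ rk M D := by
  rw [Wf, rk, card_filter_submodule]

open Classical in
/-- Twice the number of elements nontrivial at `P`. -/
lemma card_nontriv (M : Submodule (ZMod 2) (VT T)) (D : Finset T) (P : T) :
    2 * ((Wf M D).filter fun m => m P ≠ 0).card = if Us M D P then 2 ^ rk M D else 0 := by
  by_cases h : Us M D P
  · rw [if_pos h]
    have h1 : ((Wf M D).filter fun m => m P = 0).card =
        2 ^ finrank (ZMod 2) (M ⊓ LDP D P : Submodule (ZMod 2) (VT T)) := by
      rw [← card_filter_submodule]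
      congr 1
      ext m
      simp only [Wf, mem_filter, mem_univ, true_and, Submodule.mem_inf, mem_LDP]
      tauto
    have h2 := Finset.card_filter_add_card_filter_not (s := Wf M D) (fun m => m P = 0)
    rw [card_Wf, h1] at h2
    have h3 := finrank_LDP_add h
    rw [← h3, pow_succ] at h2 ⊢
    have h4 : ((Wf M D).filter fun m => m P ≠ 0).card =
      ((Wf M D).filter fun m => ¬ m P = 0).card := rfl
    rw [h4]
    omega
  · rw [if_neg h, mul_eq_zero]
    right
    rw [card_eq_zero, filter_eq_empty_iff]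
    intro m hm hne
    rw [Wf, mem_filter] at hm
    exact h ⟨m, hm.2, hne⟩

/-- Double counting. -/
lemma sum_sup (M : Submodule (ZMod 2) (VT T)) (D A : Finset T) :
    2 * ∑ m ∈ Wf M D, (sup m A).card = (Uf M D A).card * 2 ^ rk M D := by
  classical
  have h1 : ∑ m ∈ Wf M D, (sup m A).card = ∑ P ∈ A, ((Wf M D).filter fun m => m P ≠ 0).card := by
    simp only [sup, card_filter]
    rw [sum_comm]
  rw [h1, mul_sum]
  simp only [card_nontriv]
  rw [← sum_filter, sum_const, smul_eq_mul]
  rfl

/-- All nonzero elements of `M ∩ L_D` have about half of `A` in their support. -/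
def Bal (η : ℝ) (M : Submodule (ZMod 2) (VT T)) (D A : Finset T) : Prop :=
  ∀ m ∈ M ⊓ LD D, m ≠ 0 → |((sup m A).card : ℝ) - (A.card : ℝ) / 2| ≤ η * A.card

lemma Uf_card_le (M : Submodule (ZMod 2) (VT T)) (D A : Finset T) :
    (Uf M D A).card ≤ A.card := by
  classical
  exact card_filter_le _ _

/-- CODE: the number of places of `A` in the union of the supports. -/
lemma code {η : ℝ} (hη : 0 ≤ η) {M : Submodule (ZMod 2) (VT T)} {D A : Finset T}
    (h : Bal η M D A) :
    |((Uf M D A).card : ℝ) - (1 - (1 / 2) ^ rk M D) * A.card| ≤ 2 * η * A.card := by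
  classical
  have h0 : (0 : VT T) ∈ Wf M D := by
    rw [Wf, mem_filter]; exact ⟨mem_univ _, Submodule.zero_mem _⟩
  have hs : (∑ m ∈ Wf M D, ((sup m A).card : ℝ)) =
      ∑ m ∈ (Wf M D).erase 0, ((sup m A).card : ℝ) := by
    rw [← add_sum_erase _ _ h0]
    have : (sup (0 : VT T) A).card = 0 := by
      rw [card_eq_zero, sup, filter_eq_empty_iff]; intro P _ hP; exact hP rfl
    rw [this]; simp
  have hc : (((Wf M D).erase 0).card : ℝ) = 2 ^ rk M D - 1 := by
    rw [card_erase_of_mem h0, card_Wf, Nat.cast_sub Nat.one_le_two_pow]; simp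
  have h1 : |(∑ m ∈ (Wf M D).erase 0, ((sup m A).card : ℝ)) - (2 ^ rk M D - 1) * (A.card / 2)| ≤
      (2 ^ rk M D - 1) * (η * A.card) := by
    rw [← hc, ← nsmul_eq_mul, ← nsmul_eq_mul, ← sum_const, ← sum_const, ← sum_sub_distrib]
    refine (abs_sum_le_sum_abs _ _).trans (sum_le_sum fun m hm => ?_)
    rw [mem_erase, Wf, mem_filter] at hm
    exact h m hm.2.2 hm.1
  have h2 : (2 : ℝ) * ∑ m ∈ Wf M D, ((sup m A).card : ℝ) = (Uf M D A).card * 2 ^ rk M D := by
    exact_mod_cast sum_sup M D A
  rw [hs] at h2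
  have hp : (0 : ℝ) < 2 ^ rk M D := by positivity
  have hq : ((1 : ℝ) / 2) ^ rk M D * 2 ^ rk M D = 1 := by rw [← mul_pow]; norm_num
  have h3 : |((Uf M D A).card : ℝ) * 2 ^ rk M D - (2 ^ rk M D - 1) * A.card| ≤
      2 * ((2 ^ rk M D - 1) * (η * A.card)) := by
    rw [← h2]
    have e : (2 : ℝ) * ∑ m ∈ (Wf M D).erase 0, ((sup m A).card : ℝ) - (2 ^ rk M D - 1) * A.card =
      2 * ((∑ m ∈ (Wf M D).erase 0, ((sup m A).card : ℝ)) - (2 ^ rk M D - 1) * (A.card / 2)) := by
      ring
    rw [e, abs_mul, abs_two]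
    exact mul_le_mul_of_nonneg_left h1 (by norm_num)
  have h4 : |((Uf M D A).card : ℝ) - (1 - (1 / 2) ^ rk M D) * A.card| * 2 ^ rk M D ≤
      (2 * η * A.card) * 2 ^ rk M D := by
    rw [← abs_of_pos hp, ← abs_mul, abs_of_pos hp]
    have e : (((Uf M D A).card : ℝ) - (1 - (1 / 2) ^ rk M D) * A.card) * 2 ^ rk M D =
      ((Uf M D A).card : ℝ) * 2 ^ rk M D - (2 ^ rk M D - 1) * A.card := by
      calc (((Uf M D A).card : ℝ) - (1 - (1 / 2) ^ rk M D) * A.card) * 2 ^ rk M D
          = ((Uf M D A).card : ℝ) * 2 ^ rk M D -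
            (2 ^ rk M D - (1 / 2) ^ rk M D * 2 ^ rk M D) * A.card := by ring
        _ = _ := by rw [hq]
    rw [e]
    refine h3.trans ?_
    have ha : (0 : ℝ) ≤ A.card := Nat.cast_nonneg _
    nlinarith [mul_nonneg hη ha]
  exact le_of_mul_le_mul_right h4 hp

end Pool.PRX
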