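import Pool.Agent.H32.PRL.Main

/-!
# The Poonen-Rains law on the whole cube of the `D ⊆ T`
-/

set_option linter.unusedSectionVars false

namespace Pool.PRX

open Finset Module Pool.PRD

variable {T : Type*} [Fintype T] [DecidableEq T]

/-- Toggle the membership of `P`. -/
def tg (D : Finset T) (P : T) : Finset T := if P ∈ D then D.erase P else insert P D

lemma tg_tg (D : Finset T) (P : T) : tg (tg D P) P = D := by
  by_cases h : P ∈ D
  · simp [tg, h, insert_erase h]
  · simp [tg, h, erase_insert h]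

lemma sum_tg (F : Finset T → T → ℝ) :
    ∑ D : Finset T, ∑ P : T, F D P = ∑ D : Finset T, ∑ P : T, F (tg D P) P := by
  rw [sum_comm, sum_comm (f := fun D P => F (tg D P) P)]
  refine sum_congr rfl fun P _ => ?_
  exact sum_bij' (fun D _ => tg D P) (fun D _ => tg D P) (fun _ _ => mem_univ _)
    (fun _ _ => mem_univ _) (fun D _ => tg_tg D P) (fun D _ => tg_tg D P)
    (fun D _ => by rw [tg_tg])

variable {M : Submodule (ZMod 2) (VT T)}

/-- FLIP for the toggle. -/
lemma flip_tg (hM : ∀ m ∈ M, qf m = 0) (hk : finrank (ZMod 2) M = Fintype.card T)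
    (D : Finset T) (P : T) :
    (Us M D P ∧ ¬ Us M (tg D P) P ∧ rk M D = rk M (tg D P) + 1) ∨
      (¬ Us M D P ∧ Us M (tg D P) P ∧ rk M (tg D P) = rk M D + 1) := by
  by_cases h : P ∈ D
  · have := flip hM hk (D.erase P) P (notMem_erase P D)
    rw [insert_erase h] at this
    have e : tg D P = D.erase P := if_pos h
    rw [e]
    tauto
  · have := flip hM hk D P h
    have e : tg D P = insert P D := if_neg h
    rw [e]
    exact this

/-- The proportion of the `D` with `dim M ∩ L_D = r`. -/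
noncomputable def Y (M : Submodule (ZMod 2) (VT T)) (r : ℕ) : ℝ :=
  ((univ.filter fun D => rk M D = r).card : ℝ) / 2 ^ Fintype.card T

/-- The deviation at `D` of the size of the union of the supports. -/
noncomputable def dT (M : Submodule (ZMod 2) (VT T)) (D : Finset T) : ℝ :=
  |((Uf M D univ).card : ℝ) / Fintype.card T - (1 - (1 / 2) ^ rk M D)|

noncomputable def eT (M : Submodule (ZMod 2) (VT T)) (r : ℕ) : ℝ :=
  (∑ D ∈ univ.filter (fun D => rk M D = r), dT M D) / 2 ^ Fintype.card T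

lemma dT_nonneg (M : Submodule (ZMod 2) (VT T)) (D : Finset T) : 0 ≤ dT M D := abs_nonneg _

lemma dT_le_one (M : Submodule (ZMod 2) (VT T)) (D : Finset T) : dT M D ≤ 1 :=
  abs_sub_half_le (Nat.cast_nonneg _) (by exact_mod_cast Uf_card_le M D univ) (half_pow_nonneg _)
    (half_pow_le_one _)

lemma dT_le {η : ℝ} (hη : 0 ≤ η) {M : Submodule (ZMod 2) (VT T)} {D : Finset T}
    (hc : 0 < Fintype.card T) (h : Bal η M D univ) : dT M D ≤ 2 * η :=
  dev_le (by exact_mod_cast hc) (code hη h)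

lemma eT_nonneg (M : Submodule (ZMod 2) (VT T)) (r : ℕ) : 0 ≤ eT M r :=
  div_nonneg (sum_nonneg fun D _ => dT_nonneg M D) (by positivity)

open Classical in
lemma sum_eT_le {η δ : ℝ} (hη : 0 ≤ η) {M : Submodule (ZMod 2) (VT T)}
    (hc : 0 < Fintype.card T)
    (h1 : ((univ.filter fun D => ¬ Bal η M D univ).card : ℝ) ≤ δ * 2 ^ Fintype.card T) (R : ℕ) :
    ∑ r ∈ range R, eT M r ≤ 2 * η + δ := by
  simp only [eT]
  rw [← sum_div, div_le_iff₀ (by positivity)]
  refine (sum_levels_le _ _ _ (dT_nonneg M) R).trans ?_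
  exact sum_dev_le hη _ _ (fun D => Bal η M D univ)
    (by rw [card_univ, Fintype.card_finset]; push_cast; rfl)
    (fun D _ => dT_le_one M D) (fun D _ hB => dT_le hη hc hB) h1

lemma avg_T (M : Submodule (ZMod 2) (VT T)) (r : ℕ) :
    |Y M r * (1 - (1 / 2) ^ r) - (∑ D ∈ univ.filter (fun D => rk M D = r),
      ((Uf M D univ).card : ℝ)) / ((2 : ℝ) ^ Fintype.card T * (Fintype.card T : ℝ))| ≤
      eT M r := by
  have h := avg_sub_le (univ.filter fun D => rk M D = r)
    (fun D => ((Uf M D univ).card : ℝ) / Fintype.card T) (1 - (1 / 2) ^ r)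
    ((2 : ℝ) ^ Fintype.card T) (by positivity)
  have e1 : (∑ D ∈ univ.filter (fun D => rk M D = r), ((Uf M D univ).card : ℝ) / Fintype.card T) /
      (2 : ℝ) ^ Fintype.card T = (∑ D ∈ univ.filter (fun D => rk M D = r),
      ((Uf M D univ).card : ℝ)) / ((2 : ℝ) ^ Fintype.card T * (Fintype.card T : ℝ)) := by
    rw [← sum_div, div_div, mul_comm]
  have e2 : ∑ D ∈ univ.filter (fun D => rk M D = r),
      |((Uf M D univ).card : ℝ) / Fintype.card T - (1 - (1 / 2) ^ r)| =
      ∑ D ∈ univ.filter (fun D => rk M D = r), dT M D := by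
    refine sum_congr rfl fun D hD => ?_
    rw [mem_filter] at hD
    rw [dT, hD.2]
  rw [e1, e2] at h
  exact h

open Classical in
/-- Edges of the cube. -/
lemma edges_cube (hM : ∀ m ∈ M, qf m = 0) (hk : finrank (ZMod 2) M = Fintype.card T) (r : ℕ) :
    ∑ D ∈ univ.filter (fun D => rk M D = r + 1), ((Uf M D univ).card : ℝ) =
      ∑ D ∈ univ.filter (fun D => rk M D = r), ((Fintype.card T : ℝ) - (Uf M D univ).card) := by
  have h := sum_tg (fun D P => if rk M D = r + 1 ∧ Us M D P then (1 : ℝ) else 0)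
  have h1 : ∑ D : Finset T, ∑ P : T, (if rk M D = r + 1 ∧ Us M D P then (1 : ℝ) else 0) =
      ∑ D ∈ univ.filter (fun D => rk M D = r + 1), ((Uf M D univ).card : ℝ) := by
    rw [sum_filter]
    refine sum_congr rfl fun D _ => ?_
    by_cases hr : rk M D = r + 1
    · rw [if_pos hr, Uf, card_filter]
      push_cast
      refine sum_congr rfl fun P _ => ?_
      simp [hr]
    · rw [if_neg hr]
      refine sum_eq_zero fun P _ => ?_
      rw [if_neg (fun h' => hr h'.1)]
  have h2 : ∑ D : Finset T, ∑ P : T,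
      (if rk M (tg D P) = r + 1 ∧ Us M (tg D P) P then (1 : ℝ) else 0) =
      ∑ D ∈ univ.filter (fun D => rk M D = r), ((Fintype.card T : ℝ) - (Uf M D univ).card) := by
    rw [sum_filter]
    refine sum_congr rfl fun D _ => ?_
    have hfl : ∀ P, (rk M (tg D P) = r + 1 ∧ Us M (tg D P) P) ↔
        (rk M D = r ∧ ¬ Us M D P) := by
      intro P
      rcases flip_tg hM hk D P with ⟨a, b, c⟩ | ⟨a, b, c⟩
      · constructor
        · rintro ⟨_, h1⟩; exact absurd h1 b
        · rintro ⟨_, h1⟩; exact absurd a h1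
      · constructor
        · rintro ⟨h1, _⟩; exact ⟨by omega, a⟩
        · rintro ⟨h1, _⟩; exact ⟨by omega, b⟩
    rw [sum_congr rfl (fun P _ => by rw [if_congr (hfl P) rfl rfl])]
    by_cases hr : rk M D = r
    · rw [if_pos hr]
      have e : ∀ P : T, (if rk M D = r ∧ ¬ Us M D P then (1 : ℝ) else 0) =
          1 - (if Us M D P then (1 : ℝ) else 0) := by
        intro P
        by_cases hu : Us M D P <;> simp [hr, hu]
      rw [sum_congr rfl (fun P _ => e P), sum_sub_distrib, Uf, card_filter]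
      push_cast
      simp
    · rw [if_neg hr]
      refine sum_eq_zero fun P _ => ?_
      rw [if_neg (fun h' => hr h'.1)]
  rw [← h1, ← h2]
  exact h

/-- The recursion on the cube. -/
lemma recT (hM : ∀ m ∈ M, qf m = 0) (hk : finrank (ZMod 2) M = Fintype.card T)
    (hc : 0 < Fintype.card T) (r : ℕ) :
    |Y M (r + 1) * (1 - (1 / 2) ^ (r + 1)) - Y M r * (1 / 2) ^ r| ≤ eT M (r + 1) + eT M r := by
  have h1 := avg_T M (r + 1)
  have h2 := avg_T M r
  have h3 := edges_cube hM hk r
  have hc' : (Fintype.card T : ℝ) ≠ 0 := by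
    have : (0 : ℝ) < Fintype.card T := by exact_mod_cast hc
    exact this.ne'
  have h5 : Y M r = (∑ _D ∈ univ.filter (fun D => rk M D = r), (Fintype.card T : ℝ)) /
      ((2 : ℝ) ^ Fintype.card T * (Fintype.card T : ℝ)) := by
    rw [Y, sum_const, nsmul_eq_mul]
    field_simp
  rw [h3, sum_sub_distrib, sub_div, ← h5] at h1
  set Z := (∑ D ∈ univ.filter (fun D => rk M D = r),
      ((Uf M D univ).card : ℝ)) / ((2 : ℝ) ^ Fintype.card T * (Fintype.card T : ℝ)) with hZ
  have e : Y M (r + 1) * (1 - (1 / 2) ^ (r + 1)) - Y M r * (1 / 2) ^ r =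
      (Y M (r + 1) * (1 - (1 / 2) ^ (r + 1)) - (Y M r - Z)) +
      (Y M r * (1 - (1 / 2) ^ r) - Z) := by ring
  rw [e]
  exact (abs_add_le _ _).trans (add_le_add h1 h2)

lemma Y_sum (hM : ∀ m ∈ M, qf m = 0) {R : ℕ} (hR : Fintype.card T < R) :
    ∑ r ∈ range R, Y M r = 1 := by
  simp only [Y]
  rw [← sum_div, div_eq_one_iff_eq (by positivity), ← Nat.cast_sum]
  have h := (card_eq_sum_card_fiberwise (f := fun D => rk M D) (s := univ) (t := range R)
    (fun D _ => by simpa using lt_of_le_of_lt (rk_le hM D) hR))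
  rw [← h, card_univ, Fintype.card_finset]
  push_cast; rfl

open Classical in
/-- CUBE LAW. -/
theorem cube_law (hM : ∀ m ∈ M, qf m = 0) (hk : finrank (ZMod 2) M = Fintype.card T)
    (hc : 0 < Fintype.card T) {η δ : ℝ} (hη : 0 ≤ η)
    (h1 : ((univ.filter fun D => ¬ Bal η M D univ).card : ℝ) ≤ δ * 2 ^ Fintype.card T)
    (R : ℕ) : ∑ r ∈ range R, |Y M r - PR r| ≤ 32 * η + 16 * δ := by
  have hE : ∀ R, ∑ r ∈ range R, (eT M (r + 1) + eT M r) ≤ 2 * (2 * η + δ) := by
    intro R
    have a1 := sum_eT_le hη hc h1 (R + 1)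
    rw [sum_add_distrib]
    have d1 : ∑ r ∈ range R, eT M r ≤ ∑ r ∈ range (R + 1), eT M r := by
      rw [sum_range_succ]; linarith [eT_nonneg M R]
    have d2 : ∑ r ∈ range R, eT M (r + 1) ≤ ∑ r ∈ range (R + 1), eT M r := by
      rw [sum_range_succ']; linarith [eT_nonneg M 0]
    linarith
  have hfin := stab3 (z := Y M) (p := PR) (ε := fun r => eT M (r + 1) + eT M r)
    (E := 2 * (2 * η + δ)) (σ := 1) (PR_pos 0) (fun r => (PR_pos r).le)
    (fun r => by rw [mul_comm, PR_rec, mul_comm]) (recT hM hk hc) hE (fun _ => True)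
    (by norm_num)
    ⟨Fintype.card T + 1, fun R hR => by simpa using Y_sum hM (R := R) (by omega)⟩
    (by simpa using hasSum_PR) hasSum_PR R
  have e0 : (4 + 4 / (1 : ℝ)) * (2 * (2 * η + δ)) = 32 * η + 16 * δ := by ring
  rw [e0] at hfin
  simpa using hfin

/-- Exactly half of the `D` have even dimension. -/
theorem cube_parity (hM : ∀ m ∈ M, qf m = 0) (hk : finrank (ZMod 2) M = Fintype.card T)
    (hc : 0 < Fintype.card T) :
    2 * (univ.filter fun D => rk M D % 2 = 0).card = 2 ^ Fintype.card T := by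
  obtain ⟨P⟩ : Nonempty T := Fintype.card_pos_iff.mp hc
  have h1 : (univ.filter fun D => rk M D % 2 = 0).card =
      (univ.filter fun D => ¬ rk M D % 2 = 0).card := by
    refine card_bij' (fun D _ => tg D P) (fun D _ => tg D P) ?_ ?_ (fun D _ => tg_tg D P)
      (fun D _ => tg_tg D P)
    · intro D hD
      rw [mem_filter] at hD ⊢
      refine ⟨mem_univ _, ?_⟩
      rcases flip_tg hM hk D P with ⟨_, _, c⟩ | ⟨_, _, c⟩ <;> omega
    · intro D hD
      rw [mem_filter] at hD ⊢
      refine ⟨mem_univ _, ?_⟩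
      rcases flip_tg hM hk D P with ⟨_, _, c⟩ | ⟨_, _, c⟩ <;> omega
  have h2 := card_filter_add_card_filter_not (s := (univ : Finset (Finset T)))
    (fun D => rk M D % 2 = 0)
  rw [card_univ, Fintype.card_finset] at h2
  omega

end Pool.PRX
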