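import Pool.Agent.H32.PRL.Cube

/-!
# The law on a regular subgraph of the cube

`L` is a set of subsets `D ⊆ T` and `A D` (`D ∈ L`) a set of `a` directions, stable under toggling.
Here `r(D) = dim M ∩ LD Dᶜ`.
-/

set_option linter.unusedSectionVars false

namespace Pool.PRX

open Finset Module Pool.PRD

variable {T : Type*} [Fintype T] [DecidableEq T]

lemma tg_compl (D : Finset T) (P : T) : (tg D P)ᶜ = tg Dᶜ P := by
  by_cases h : P ∈ D
  · have h' : P ∉ Dᶜ := by simpa using h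
    rw [tg, if_pos h, tg, if_neg h']
    ext Q; by_cases hQ : Q = P <;> simp [hQ]
  · have h' : P ∈ Dᶜ := by simpa using h
    rw [tg, if_neg h, tg, if_pos h']
    ext Q; by_cases hQ : Q = P <;> simp [hQ]

/-- Stability of the pair `(L, A)`. -/
structure Reg (L : Finset (Finset T)) (A : Finset T → Finset T) (a : ℕ) : Prop where
  card : ∀ D ∈ L, (A D).card = a
  pos : 0 < a
  ne : L.Nonempty
  tgL : ∀ D ∈ L, ∀ P ∈ A D, tg D P ∈ L
  tgA : ∀ D ∈ L, ∀ P ∈ A D, P ∈ A (tg D P)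

variable {L : Finset (Finset T)} {A : Finset T → Finset T} {a : ℕ}

lemma sum_reg (h : Reg L A a) (F : Finset T → T → ℝ) :
    ∑ D ∈ L, ∑ P ∈ A D, F D P = ∑ D ∈ L, ∑ P ∈ A D, F (tg D P) P := by
  rw [sum_sigma', sum_sigma']
  refine sum_bij' (fun x _ => ⟨tg x.1 x.2, x.2⟩) (fun x _ => ⟨tg x.1 x.2, x.2⟩) ?_ ?_ ?_ ?_ ?_
  · rintro ⟨D, P⟩ hx
    simp only [mem_sigma] at hx ⊢
    exact ⟨h.tgL D hx.1 P hx.2, h.tgA D hx.1 P hx.2⟩
  · rintro ⟨D, P⟩ hx
    simp only [mem_sigma] at hx ⊢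
    exact ⟨h.tgL D hx.1 P hx.2, h.tgA D hx.1 P hx.2⟩
  · rintro ⟨D, P⟩ _; simp [tg_tg]
  · rintro ⟨D, P⟩ _; simp [tg_tg]
  · rintro ⟨D, P⟩ _; simp [tg_tg]

variable {M : Submodule (ZMod 2) (VT T)}

/-- The proportion of the `D ∈ L` with `r(D) = r`. -/
noncomputable def Z (M : Submodule (ZMod 2) (VT T)) (L : Finset (Finset T)) (r : ℕ) : ℝ :=
  ((L.filter fun D => rk M Dᶜ = r).card : ℝ) / L.card

/-- The deviation at `D` of the size of the union of the supports in `A D`. -/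
noncomputable def dG (M : Submodule (ZMod 2) (VT T)) (A : Finset T → Finset T)
    (D : Finset T) : ℝ :=
  |((Uf M Dᶜ (A D)).card : ℝ) / (A D).card - (1 - (1 / 2) ^ rk M Dᶜ)|

noncomputable def eG (M : Submodule (ZMod 2) (VT T)) (L : Finset (Finset T))
    (A : Finset T → Finset T) (r : ℕ) : ℝ :=
  (∑ D ∈ L.filter (fun D => rk M Dᶜ = r), dG M A D) / L.card

lemma dG_nonneg (M : Submodule (ZMod 2) (VT T)) (A : Finset T → Finset T) (D : Finset T) :
    0 ≤ dG M A D := abs_nonneg _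

lemma dG_le_one (M : Submodule (ZMod 2) (VT T)) (A : Finset T → Finset T) (D : Finset T) :
    dG M A D ≤ 1 :=
  abs_sub_half_le (Nat.cast_nonneg _) (by exact_mod_cast Uf_card_le M Dᶜ (A D))
    (half_pow_nonneg _) (half_pow_le_one _)

lemma dG_le {η : ℝ} (hη : 0 ≤ η) {M : Submodule (ZMod 2) (VT T)} {D : Finset T}
    (hc : 0 < (A D).card) (h : Bal η M Dᶜ (A D)) : dG M A D ≤ 2 * η :=
  dev_le (by exact_mod_cast hc) (code hη h)

lemma eG_nonneg (M : Submodule (ZMod 2) (VT T)) (L : Finset (Finset T))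
    (A : Finset T → Finset T) (r : ℕ) : 0 ≤ eG M L A r :=
  div_nonneg (sum_nonneg fun D _ => dG_nonneg M A D) (Nat.cast_nonneg _)

open Classical in
lemma sum_eG_le {η δ : ℝ} (hη : 0 ≤ η) {M : Submodule (ZMod 2) (VT T)} (h : Reg L A a)
    (h1 : ((L.filter fun D => ¬ Bal η M Dᶜ (A D)).card : ℝ) ≤ δ * L.card) (R : ℕ) :
    ∑ r ∈ range R, eG M L A r ≤ 2 * η + δ := by
  have hL : (0 : ℝ) < L.card := by exact_mod_cast h.ne.card_pos
  simp only [eG]
  rw [← sum_div, div_le_iff₀ hL]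
  refine (sum_levels_le L (fun D => rk M Dᶜ) _ (dG_nonneg M A) R).trans ?_
  refine sum_dev_le hη _ _ (fun D => Bal η M Dᶜ (A D)) rfl (fun D _ => dG_le_one M A D) ?_ h1
  intro D hD hB
  exact dG_le hη (by rw [h.card D hD]; exact h.pos) hB

lemma avg_G (M : Submodule (ZMod 2) (VT T)) (h : Reg L A a) (r : ℕ) :
    |Z M L r * (1 - (1 / 2) ^ r) - (∑ D ∈ L.filter (fun D => rk M Dᶜ = r),
      ((Uf M Dᶜ (A D)).card : ℝ)) / ((L.card : ℝ) * (a : ℝ))| ≤ eG M L A r := by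
  have hL : (0 : ℝ) < L.card := by exact_mod_cast h.ne.card_pos
  have h' := avg_sub_le (L.filter fun D => rk M Dᶜ = r)
    (fun D => ((Uf M Dᶜ (A D)).card : ℝ) / (A D).card) (1 - (1 / 2) ^ r) _ hL
  have e1 : (∑ D ∈ L.filter (fun D => rk M Dᶜ = r),
      ((Uf M Dᶜ (A D)).card : ℝ) / (A D).card) / L.card =
      (∑ D ∈ L.filter (fun D => rk M Dᶜ = r), ((Uf M Dᶜ (A D)).card : ℝ)) /
        ((L.card : ℝ) * (a : ℝ)) := by
    have : ∀ D ∈ L.filter (fun D => rk M Dᶜ = r), ((Uf M Dᶜ (A D)).card : ℝ) / (A D).card =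
        ((Uf M Dᶜ (A D)).card : ℝ) / (a : ℝ) := by
      intro D hD
      rw [mem_filter] at hD
      rw [h.card D hD.1]
    rw [sum_congr rfl this, ← sum_div, div_div, mul_comm]
  have e2 : ∑ D ∈ L.filter (fun D => rk M Dᶜ = r),
      |((Uf M Dᶜ (A D)).card : ℝ) / (A D).card - (1 - (1 / 2) ^ r)| =
      ∑ D ∈ L.filter (fun D => rk M Dᶜ = r), dG M A D := by
    refine sum_congr rfl fun D hD => ?_
    rw [mem_filter] at hD
    rw [dG, hD.2]
  rw [e1, e2] at h'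
  exact h'

open Classical in
/-- Edges of the subgraph. -/
lemma edges_reg (hM : ∀ m ∈ M, qf m = 0) (hk : finrank (ZMod 2) M = Fintype.card T)
    (h : Reg L A a) (r : ℕ) :
    ∑ D ∈ L.filter (fun D => rk M Dᶜ = r + 1), ((Uf M Dᶜ (A D)).card : ℝ) =
      ∑ D ∈ L.filter (fun D => rk M Dᶜ = r), ((a : ℝ) - (Uf M Dᶜ (A D)).card) := by
  have hh := sum_reg h (fun D P => if rk M Dᶜ = r + 1 ∧ Us M Dᶜ P then (1 : ℝ) else 0)
  have h1 : ∑ D ∈ L, ∑ P ∈ A D, (if rk M Dᶜ = r + 1 ∧ Us M Dᶜ P then (1 : ℝ) else 0) =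
      ∑ D ∈ L.filter (fun D => rk M Dᶜ = r + 1), ((Uf M Dᶜ (A D)).card : ℝ) := by
    rw [sum_filter]
    refine sum_congr rfl fun D _ => ?_
    by_cases hr : rk M Dᶜ = r + 1
    · rw [if_pos hr, Uf, card_filter]
      push_cast
      refine sum_congr rfl fun P _ => ?_
      simp [hr]
    · rw [if_neg hr]
      refine sum_eq_zero fun P _ => ?_
      rw [if_neg (fun h' => hr h'.1)]
  have h2 : ∑ D ∈ L, ∑ P ∈ A D,
      (if rk M (tg D P)ᶜ = r + 1 ∧ Us M (tg D P)ᶜ P then (1 : ℝ) else 0) =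
      ∑ D ∈ L.filter (fun D => rk M Dᶜ = r), ((a : ℝ) - (Uf M Dᶜ (A D)).card) := by
    rw [sum_filter]
    refine sum_congr rfl fun D hD => ?_
    have hfl : ∀ P, (rk M (tg D P)ᶜ = r + 1 ∧ Us M (tg D P)ᶜ P) ↔
        (rk M Dᶜ = r ∧ ¬ Us M Dᶜ P) := by
      intro P
      rw [tg_compl]
      rcases flip_tg hM hk Dᶜ P with ⟨x, y, z⟩ | ⟨x, y, z⟩
      · constructor
        · rintro ⟨_, h1⟩; exact absurd h1 y
        · rintro ⟨_, h1⟩; exact absurd x h1
      · constructor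
        · rintro ⟨h1, _⟩; exact ⟨by omega, x⟩
        · rintro ⟨h1, _⟩; exact ⟨by omega, y⟩
    rw [sum_congr rfl (fun P _ => by rw [if_congr (hfl P) rfl rfl])]
    by_cases hr : rk M Dᶜ = r
    · rw [if_pos hr]
      have e : ∀ P : T, (if rk M Dᶜ = r ∧ ¬ Us M Dᶜ P then (1 : ℝ) else 0) =
          1 - (if Us M Dᶜ P then (1 : ℝ) else 0) := by
        intro P
        by_cases hu : Us M Dᶜ P <;> simp [hr, hu]
      rw [sum_congr rfl (fun P _ => e P), sum_sub_distrib, Uf, card_filter, ← h.card D hD]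
      push_cast
      simp
    · rw [if_neg hr]
      refine sum_eq_zero fun P _ => ?_
      rw [if_neg (fun h' => hr h'.1)]
  rw [← h1, ← h2]
  exact hh

/-- The recursion on the subgraph. -/
lemma recG (hM : ∀ m ∈ M, qf m = 0) (hk : finrank (ZMod 2) M = Fintype.card T)
    (h : Reg L A a) (r : ℕ) :
    |Z M L (r + 1) * (1 - (1 / 2) ^ (r + 1)) - Z M L r * (1 / 2) ^ r| ≤
      eG M L A (r + 1) + eG M L A r := by
  have h1 := avg_G M h (r + 1)
  have h2 := avg_G M h r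
  have h3 := edges_reg hM hk h r
  have hL : (0 : ℝ) < L.card := by exact_mod_cast h.ne.card_pos
  have hc' : (a : ℝ) ≠ 0 := by
    have : (0 : ℝ) < a := by exact_mod_cast h.pos
    exact this.ne'
  have h5 : Z M L r = (∑ _D ∈ L.filter (fun D => rk M Dᶜ = r), (a : ℝ)) /
      ((L.card : ℝ) * (a : ℝ)) := by
    rw [Z, sum_const, nsmul_eq_mul]
    field_simp
  rw [h3, sum_sub_distrib, sub_div, ← h5] at h1
  set W := (∑ D ∈ L.filter (fun D => rk M Dᶜ = r),
      ((Uf M Dᶜ (A D)).card : ℝ)) / ((L.card : ℝ) * (a : ℝ)) with hW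
  have e : Z M L (r + 1) * (1 - (1 / 2) ^ (r + 1)) - Z M L r * (1 / 2) ^ r =
      (Z M L (r + 1) * (1 - (1 / 2) ^ (r + 1)) - (Z M L r - W)) +
      (Z M L r * (1 - (1 / 2) ^ r) - W) := by ring
  rw [e]
  exact (abs_add_le _ _).trans (add_le_add h1 h2)

lemma Z_sum (hM : ∀ m ∈ M, qf m = 0) (hne : L.Nonempty) {R : ℕ} (hR : Fintype.card T < R) :
    ∑ r ∈ range R, Z M L r = 1 := by
  have hL : (L.card : ℝ) ≠ 0 := by exact_mod_cast hne.card_pos.ne'
  simp only [Z]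
  rw [← sum_div, div_eq_one_iff_eq hL, ← Nat.cast_sum]
  congr 1
  exact (card_eq_sum_card_fiberwise (f := fun D => rk M Dᶜ) (s := L) (t := range R)
    (fun D _ => by simpa using lt_of_le_of_lt (rk_le hM Dᶜ) hR)).symm

open Classical in
/-- The law on a regular subgraph. -/
theorem graph_law (hM : ∀ m ∈ M, qf m = 0) (hk : finrank (ZMod 2) M = Fintype.card T)
    (h : Reg L A a) {η δ : ℝ} (hη : 0 ≤ η)
    (h1 : ((L.filter fun D => ¬ Bal η M Dᶜ (A D)).card : ℝ) ≤ δ * L.card)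
    (R : ℕ) : ∑ r ∈ range R, |Z M L r - PR r| ≤ 32 * η + 16 * δ := by
  have hE : ∀ R, ∑ r ∈ range R, (eG M L A (r + 1) + eG M L A r) ≤ 2 * (2 * η + δ) := by
    intro R
    have a1 := sum_eG_le hη h h1 (R + 1)
    rw [sum_add_distrib]
    have d1 : ∑ r ∈ range R, eG M L A r ≤ ∑ r ∈ range (R + 1), eG M L A r := by
      rw [sum_range_succ]; linarith [eG_nonneg M L A R]
    have d2 : ∑ r ∈ range R, eG M L A (r + 1) ≤ ∑ r ∈ range (R + 1), eG M L A r := by
      rw [sum_range_succ']; linarith [eG_nonneg M L A 0]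
    linarith
  have hfin := stab3 (z := Z M L) (p := PR) (ε := fun r => eG M L A (r + 1) + eG M L A r)
    (E := 2 * (2 * η + δ)) (σ := 1) (PR_pos 0) (fun r => (PR_pos r).le)
    (fun r => by rw [mul_comm, PR_rec, mul_comm]) (recG hM hk h) hE (fun _ => True)
    (by norm_num)
    ⟨Fintype.card T + 1, fun R hR => by simpa using Z_sum hM h.ne (R := R) (by omega)⟩
    (by simpa using hasSum_PR) hasSum_PR R
  have e0 : (4 + 4 / (1 : ℝ)) * (2 * (2 * η + δ)) = 32 * η + 16 * δ := by ring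
  rw [e0] at hfin
  simpa using hfin

end Pool.PRX
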