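import Pool.Agent.H75.PRL.S2

/-!
# Rows LSM and LSU: local solubility from a smooth point, from a unimodular lattice
-/

set_option autoImplicit false

namespace Pool.PRL

open Polynomial Matrix Pool.AVR Pool.AVS Pool.RZ

namespace LSMaux

theorem disc_map {R R' : Type} [CommRing R] [CommRing R'] (φ : R →+* R') (a b c : R) :
    φ (disc a b c) = disc (φ a) (φ b) (φ c) := by
  simp only [disc, map_sub, map_add, map_mul, map_pow, map_ofNat]

theorem cub_map {R R' : Type} [CommRing R] [CommRing R'] (φ : R →+* R') (a b c : R) :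
    (cub a b c).map φ = cub (φ a) (φ b) (φ c) := by
  simp [cub]

theorem cub_monic {R : Type} [CommRing R] [Nontrivial R] (a b c : R) : (cub a b c).Monic := by
  unfold cub; monicity!

theorem tau_map {K L : Type} [Field K] [Field L] (ι : K →+* L) (a b c : K) (p : K[X]) :
    tau (ι a) (ι b) (ι c) (p.map ι) = ι (tau a b c p) := by
  unfold tau
  rw [← cub_map, ← Polynomial.map_modByMonic _ (cub_monic a b c), coeff_map]

theorem repH_map {K L : Type} [Field K] [Field L] (ι : K →+* L) {a b c : K} {h : K[X]}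
    {G B : Matrix (Fin 3) (Fin 3) K} (hr : RepH a b c h G B) :
    RepH (ι a) (ι b) (ι c) (h.map ι) (G.map ι) (B.map ι) := by
  obtain ⟨e, h1, h2⟩ := hr
  refine ⟨fun i => (e i).map ι, fun i j => ?_, fun i j => ?_⟩
  · rw [← Polynomial.map_mul, ← Polynomial.map_mul, tau_map, h1, Matrix.map_apply]
  · rw [← Polynomial.map_mul, ← Polynomial.map_mul, ← Polynomial.map_X ι,
      ← Polynomial.map_mul, tau_map, h2, Matrix.map_apply]

theorem bil_smul {L : Type} [Field L] (t : L) (B : Matrix (Fin 3) (Fin 3) L) (u v : Fin 3 → L) :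
    bil (t • B) u v = t * bil B u v := by
  unfold bil
  rw [Matrix.smul_mulVec, dotProduct_smul, smul_eq_mul]

theorem bil_smul2 {L : Type} [Field L] (t : L) (B : Matrix (Fin 3) (Fin 3) L) (u : Fin 3 → L) :
    bil B (t • u) (t • u) = t ^ 2 * bil B u u := by
  unfold bil
  rw [Matrix.mulVec_smul, dotProduct_smul, smul_dotProduct, smul_eq_mul, smul_eq_mul]
  ring

theorem MI_mulO {L : Type} [Field L] (O : ValuationSubring L) {g h : Matrix (Fin 3) (Fin 3) L}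
    (hg : MI (O : Set L) g) (hh : MI (O : Set L) h) : MI (O : Set L) (g * h) := by
  intro i j
  rw [Matrix.mul_apply]
  exact Subring.sum_mem O.toSubring fun k _ => O.toSubring.mul_mem (hg i k) (hh k j)

end LSMaux

open LSMaux

/-- LSM. -/
theorem lsm (hSYH : SYHStmt) (hCHH : CHHStmt) (hHSM : HSMStmt) (hSOL : SOLStmt) : LSMStmt := by
  intro L _ O π hL τ a b c ε h G B hτ hsep hr hG _ hB ⟨κ, hκ, hκG, z, w, hsm⟩
  have hr1 : RepH a b c h (AA L) (κᵀ * B * κ) := by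
    have := hCHH L a b c h G B κ hr
    rwa [hκG] at this
  have hBs := (hSYH L a b c h _ _ hr).2
  have hB1s := (hSYH L a b c h _ _ hr1).2
  have hB2s : ((τ ^ 2)⁻¹ • (κᵀ * B * κ))ᵀ = (τ ^ 2)⁻¹ • (κᵀ * B * κ) := by
    rw [Matrix.transpose_smul, hB1s]
  have hB2 : MI (O : Set L) ((τ ^ 2)⁻¹ • (κᵀ * B * κ)) := by
    have e : (τ ^ 2)⁻¹ • (κᵀ * B * κ) = κᵀ * ((τ ^ 2)⁻¹ • B) * κ := by
      rw [Matrix.mul_smul, Matrix.smul_mul]
    rw [e]
    exact MI_mulO O (MI_mulO O (fun i j => hκ.1 j i) hB) hκ.1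
  obtain ⟨Z, hZ, hsol⟩ := hSOL L hL.two.1 a b c h (κᵀ * B * κ) hsep hr1
  obtain ⟨s, t, w', hs, ht, hw', hcov, _⟩ := hHSM L O π hL _ z w hB2s hB2 hsm Z hZ
  refine hsol s (τ * w' / t) hs (div_ne_zero (mul_ne_zero hτ hw') ht) ?_
  have h1 := hcov.2.2
  rw [bil_smul2, bil_smul] at h1
  rw [div_pow, mul_pow, h1]
  field_simp

/-- LSU at one place. -/
theorem lsu_one (hCPH : CPHStmt) (hDSC : DSCStmt) (hNFO : NFOStmt) (hCHH : CHHStmt)
    (hSYH : SYHStmt) (hLSM : LSMStmt) {F : Type} [Field F] {I : Set (RatFunc F)}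
    {ϖ : RatFunc F} {L : Type} [Field L] {O : ValuationSubring L} {ι : RatFunc F →+* L}
    (hι : IsComp F I ϖ L O ι)
    (hSMP : ∀ B : Matrix (Fin 3) (Fin 3) L, Bᵀ = B → MI (O : Set L) B → dB B / ι ϖ ^ 2 ∉ O →
      ∃ (z : Fin 3 → L) (w : L), Smo (O : Set L) (ι ϖ) (AA L) B z w)
    (τ a b c ε : RatFunc F) (h : (RatFunc F)[X]) (G B : Matrix (Fin 3) (Fin 3) (RatFunc F))
    (hτ : τ ≠ 0) (hr : RepH a b c h G B) (hG : GI I G) (hdet : G.det = -ε ^ 2)
    (hB : MI I ((τ ^ 2)⁻¹ • B))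
    (hd : disc (a / τ ^ 2) (b / τ ^ 4) (c / τ ^ 6) / ϖ ^ 2 ∉ I) :
    LocSol (ι a) (ι b) (ι c) (h.map ι) := by
  have hL := hι.loc
  have h2L : (2 : L) ≠ 0 := hL.two.1
  have hrL := repH_map ι hr
  have hdetL : (G.map ι).det = ι G.det := (RingHom.map_det ι G).symm
  have hGL : GI (O : Set L) (G.map ι) := by
    refine ⟨fun i j => (hι.mem _).mpr (hG.1 i j), ?_⟩
    rw [hdetL]
    refine ⟨by rw [Ne, map_eq_zero]; exact hG.2.1, (hι.mem _).mpr hG.2.2.1, ?_⟩
    rw [← map_inv₀]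
    exact (hι.mem _).mpr hG.2.2.2
  have hdetL2 : (G.map ι).det = -(ι ε) ^ 2 := by rw [hdetL, hdet, map_neg, map_pow]
  have hε0 : ι ε ≠ 0 := by
    intro h0
    have := hGL.2.1
    rw [hdetL2, h0] at this
    exact this (by ring)
  have hsq : ∀ x : L, x ^ 2 ∈ O → x ∈ O := by
    intro x hx
    rcases O.mem_or_inv_mem x with h1 | h1
    · exact h1
    · by_cases h0 : x = 0
      · rw [h0]; exact O.zero_mem
      · have e : x = x ^ 2 * x⁻¹ := by field_simp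
        rw [e]; exact O.mul_mem _ _ hx h1
  have hεU : UI (O : Set L) (ι ε) := by
    refine ⟨hε0, hsq _ ?_, hsq _ ?_⟩
    · have := O.neg_mem _ hGL.2.2.1
      rw [hdetL2, neg_neg] at this
      exact this
    · have := O.neg_mem _ hGL.2.2.2
      rw [hdetL2, inv_neg, neg_neg, ← inv_pow] at this
      exact this
  have hGs := (hSYH L _ _ _ _ _ _ hrL).1
  obtain ⟨κ, hκ, hκG⟩ := hNFO L O (ι ϖ) hL (G.map ι) (ι ε) hGs hGL.1 hεU hdetL2
  have hτL : ι τ ≠ 0 := by rw [Ne, map_eq_zero]; exact hτ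
  have hBL : MI (O : Set L) ((ι τ ^ 2)⁻¹ • (B.map ι)) := by
    intro i j
    have := (hι.mem _).mpr (hB i j)
    rw [Matrix.smul_apply, smul_eq_mul, map_mul, map_inv₀, map_pow] at this
    exact this
  have hr1 : RepH (ι a) (ι b) (ι c) (h.map ι) (AA L) (κᵀ * (B.map ι) * κ) := by
    have := hCHH L _ _ _ _ _ _ κ hrL
    rwa [hκG] at this
  obtain ⟨e1, e2, e3⟩ := hCPH L _ _ _ _ _ hr1
  set B1 := κᵀ * (B.map ι) * κ with hB1
  set t := (ι τ ^ 2)⁻¹ with ht
  have hia : ia (t • B1) = t * ia B1 := by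
    simp only [ia, Matrix.smul_apply, smul_eq_mul]; ring
  have hib : ib (t • B1) = t ^ 2 * ib B1 := by
    simp only [ib, Matrix.smul_apply, smul_eq_mul]; ring
  have hic : ic (t • B1) = t ^ 3 * ic B1 := by
    simp only [ic, Matrix.det_smul, Fintype.card_fin]
  have hdB : dB (t • B1) = ι (disc (a / τ ^ 2) (b / τ ^ 4) (c / τ ^ 6)) := by
    rw [disc_map, dB, hia, hib, hic, e1, e2, e3]
    have f1 : t * ι a = ι (a / τ ^ 2) := by rw [map_div₀, map_pow, ht]; field_simp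
    have f2 : t ^ 2 * ι b = ι (b / τ ^ 4) := by rw [map_div₀, map_pow, ht]; field_simp
    have f3 : t ^ 3 * ι c = ι (c / τ ^ 6) := by rw [map_div₀, map_pow, ht]; field_simp
    rw [f1, f2, f3]
  have hdB2 : dB (t • B1) / ι ϖ ^ 2 ∉ O := by
    rw [hdB, ← map_pow, ← map_div₀, hι.mem]
    exact hd
  have hB1s := (hSYH L _ _ _ _ _ _ hr1).2
  have hB2 : MI (O : Set L) (t • B1) := by
    have e : t • B1 = κᵀ * (t • (B.map ι)) * κ := by
      rw [hB1, Matrix.mul_smul, Matrix.smul_mul]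
    rw [e]
    exact MI_mulO O (MI_mulO O (fun i j => hκ.1 j i) hBL) hκ.1
  obtain ⟨z, w, hsm⟩ := hSMP (t • B1) (by rw [Matrix.transpose_smul, hB1s]) hB2 hdB2
  -- separability
  have hd0 : disc (ι a) (ι b) (ι c) ≠ 0 := by
    intro h0
    apply hdB2
    have e : dB (t • B1) = t ^ 6 * disc (ι a) (ι b) (ι c) := by
      rw [dB, hia, hib, hic, e1, e2, e3]
      simp only [disc]; ring
    rw [e, h0, mul_zero, zero_div]
    exact O.zero_mem
  have hsep := ((hDSC L h2L (ι a) (ι b) (ι c)).1).mpr hd0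
  exact hLSM L O (ι ϖ) hL (ι τ) (ι a) (ι b) (ι c) (ι ε) (h.map ι) (G.map ι) (B.map ι) hτL hsep
    hrL hGL hdetL2 hBL ⟨κ, hκ, hκG, z, w, hsm⟩

/-- LSU. -/
theorem lsu (hCPH : CPHStmt) (hDSC : DSCStmt) (hNFO : NFOStmt) (hCHH : CHHStmt)
    (hSYH : SYHStmt) (hLSM : LSMStmt) (hSMP : SMPStmt) : LSUStmt := by
  intro F _ _ h2
  obtain ⟨s1, s2⟩ := hSMP F h2
  refine ⟨?_, ?_⟩
  · intro P hPm hPi L _ O ι hι τ a b c ε h G B hτ hr hG hdet hB hd
    exact lsu_one hCPH hDSC hNFO hCHH hSYH hLSM hι (s1 P hPm hPi L O ι hι) τ a b c ε h G B hτ hr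
      hG hdet hB hd
  · intro L _ O ι hι τ a b c ε h G B hτ hr hG hdet hB hd
    exact lsu_one hCPH hDSC hNFO hCHH hSYH hLSM hι (s2 L O ι hι) τ a b c ε h G B hτ hr
      hG hdet hB hd

end Pool.PRL
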