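import Mathlib

/-!
# Lagrangian subspaces of a hyperbolic space over `F_2` and the neighbours `L_D`, `L_{D ∪ P}`

`VT T = T → ZMod 2 × ZMod 2` with the quadratic form `q(m) = ∑_P x_P y_P`.
`(1,0)` is the class `a` and `(0,1)` the class `b`.
-/

set_option linter.unusedSectionVars false

namespace Pool.PRX

open Finset Module

variable {T : Type*} [Fintype T] [DecidableEq T]

/-- The hyperbolic space `⊕_P (F_2)^2`. -/
abbrev VT (T : Type*) := T → ZMod 2 × ZMod 2

/-- The quadratic form `q`. -/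
def qf (m : VT T) : ZMod 2 := ∑ P, (m P).1 * (m P).2

/-- The Lagrangian `L_D`: classes `1, a` off `D` and `1, b` on `D`. -/
def LD (D : Finset T) : Submodule (ZMod 2) (VT T) where
  carrier := {m | ∀ P, (P ∈ D → (m P).1 = 0) ∧ (P ∉ D → (m P).2 = 0)}
  add_mem' := by
    intro m n hm hn P
    exact ⟨fun h => by simp [(hm P).1 h, (hn P).1 h], fun h => by simp [(hm P).2 h, (hn P).2 h]⟩
  zero_mem' := by intro P; simp
  smul_mem' := by
    intro c m hm P
    exact ⟨fun h => by simp [(hm P).1 h], fun h => by simp [(hm P).2 h]⟩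

lemma mem_LD {D : Finset T} {m : VT T} :
    m ∈ LD D ↔ ∀ P, (P ∈ D → (m P).1 = 0) ∧ (P ∉ D → (m P).2 = 0) := Iff.rfl

/-- The polar form of `q`. -/
def Bf (T : Type*) [Fintype T] : LinearMap.BilinForm (ZMod 2) (VT T) :=
  LinearMap.mk₂ (ZMod 2) (fun m n => ∑ P, ((m P).1 * (n P).2 + (m P).2 * (n P).1))
    (by intro m m' n; rw [← sum_add_distrib]; refine sum_congr rfl fun P _ => ?_; simp; ring)
    (by intro c m n; rw [smul_eq_mul, mul_sum]; refine sum_congr rfl fun P _ => ?_; simp; ring)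
    (by intro m n n'; rw [← sum_add_distrib]; refine sum_congr rfl fun P _ => ?_; simp; ring)
    (by intro c m n; rw [smul_eq_mul, mul_sum]; refine sum_congr rfl fun P _ => ?_; simp; ring)

lemma Bf_apply (m n : VT T) : Bf T m n = ∑ P, ((m P).1 * (n P).2 + (m P).2 * (n P).1) := rfl

lemma Bf_symm (m n : VT T) : Bf T m n = Bf T n m := by
  rw [Bf_apply, Bf_apply]; refine sum_congr rfl fun P _ => ?_; ring

lemma Bf_refl : (Bf T).IsRefl := fun m n h => by rw [Bf_symm]; exact h

lemma Bf_single1 (m : VT T) (P : T) : Bf T m (Pi.single P (1, 0)) = (m P).2 := by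
  rw [Bf_apply, sum_eq_single P]
  · simp
  · intro Q _ hQ; simp [Pi.single_eq_of_ne hQ]
  · intro h; exact absurd (mem_univ P) h

lemma Bf_single2 (m : VT T) (P : T) : Bf T m (Pi.single P (0, 1)) = (m P).1 := by
  rw [Bf_apply, sum_eq_single P]
  · simp
  · intro Q _ hQ; simp [Pi.single_eq_of_ne hQ]
  · intro h; exact absurd (mem_univ P) h

lemma Bf_sep (m : VT T) (h : ∀ n, Bf T m n = 0) : m = 0 := by
  funext P
  have h1 := h (Pi.single P (1, 0))
  have h2 := h (Pi.single P (0, 1))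
  rw [Bf_single1] at h1
  rw [Bf_single2] at h2
  exact Prod.ext h2 h1

lemma Bf_nondeg : (Bf T).Nondegenerate :=
  ⟨Bf_sep, fun n h => Bf_sep n fun m => by rw [Bf_symm]; exact h m⟩

lemma qf_add (m n : VT T) : qf (m + n) = qf m + qf n + Bf T m n := by
  rw [qf, qf, qf, Bf_apply, ← sum_add_distrib, ← sum_add_distrib]
  refine sum_congr rfl fun P _ => ?_
  simp only [Pi.add_apply, Prod.fst_add, Prod.snd_add]
  ring

lemma qf_LD {D : Finset T} {m : VT T} (hm : m ∈ LD D) : qf m = 0 := by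
  rw [qf]
  refine sum_eq_zero fun P _ => ?_
  by_cases h : P ∈ D
  · rw [(hm P).1 h, zero_mul]
  · rw [(hm P).2 h, mul_zero]

lemma finrank_VT : finrank (ZMod 2) (VT T) = 2 * Fintype.card T := by
  rw [Module.finrank_pi_fintype]
  simp [mul_comm]

/-- A totally singular subspace is contained in its orthogonal. -/
lemma le_orth {M : Submodule (ZMod 2) (VT T)} (hM : ∀ m ∈ M, qf m = 0) :
    M ≤ (Bf T).orthogonal M := by
  intro m hm n hn
  have := qf_add n m
  rw [hM _ (M.add_mem hn hm), hM _ hn, hM _ hm] at this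
  show Bf T n m = 0
  simpa using this.symm

/-- A totally singular subspace has dimension at most `k`. -/
lemma finrank_le {M : Submodule (ZMod 2) (VT T)} (hM : ∀ m ∈ M, qf m = 0) :
    finrank (ZMod 2) M ≤ Fintype.card T := by
  have h1 := Submodule.finrank_mono (le_orth hM)
  have h2 := LinearMap.BilinForm.finrank_orthogonal (Bf_nondeg (T := T)) M
  rw [finrank_VT] at h2
  have h3 := Submodule.finrank_le M
  rw [finrank_VT] at h3
  omega

/-- For a Lagrangian the orthogonal is the space itself. -/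
lemma orth_eq {M : Submodule (ZMod 2) (VT T)} (hM : ∀ m ∈ M, qf m = 0)
    (hk : finrank (ZMod 2) M = Fintype.card T) : (Bf T).orthogonal M = M := by
  refine (Submodule.eq_of_le_of_finrank_le (le_orth hM) ?_).symm
  rw [LinearMap.BilinForm.finrank_orthogonal (Bf_nondeg (T := T)) M, finrank_VT]
  omega

/-- `r(D) = dim M ∩ L_D`. -/
noncomputable def rk (M : Submodule (ZMod 2) (VT T)) (D : Finset T) : ℕ :=
  finrank (ZMod 2) (M ⊓ LD D : Submodule (ZMod 2) (VT T))

/-- The places at which some element of `M ∩ L_D` is nontrivial. -/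
def Us (M : Submodule (ZMod 2) (VT T)) (D : Finset T) (P : T) : Prop :=
  ∃ m ∈ M ⊓ LD D, m P ≠ 0

/-- The elements of `L_D` trivial at `P`. -/
def LDP (D : Finset T) (P : T) : Submodule (ZMod 2) (VT T) where
  carrier := {m | m ∈ LD D ∧ m P = 0}
  add_mem' := by
    intro m n hm hn
    exact ⟨(LD D).add_mem hm.1 hn.1, by simp [hm.2, hn.2]⟩
  zero_mem' := ⟨(LD D).zero_mem, rfl⟩
  smul_mem' := by
    intro c m hm
    exact ⟨(LD D).smul_mem c hm.1, by simp [hm.2]⟩

lemma mem_LDP {D : Finset T} {P : T} {m : VT T} : m ∈ LDP D P ↔ m ∈ LD D ∧ m P = 0 := Iff.rfl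

/-- `LDP` does not depend on the membership of `P`. -/
lemma LDP_insert (D : Finset T) (P : T) : LDP (insert P D) P = LDP D P := by
  ext m
  rw [mem_LDP, mem_LDP]
  constructor
  · rintro ⟨h1, h2⟩
    refine ⟨fun Q => ?_, h2⟩
    by_cases hQ : Q = P
    · subst hQ; rw [h2]; simp
    · have := h1 Q
      rw [mem_insert] at this
      exact ⟨fun h => this.1 (Or.inr h), fun h => this.2 (fun h' => h'.elim hQ h)⟩
  · rintro ⟨h1, h2⟩
    refine ⟨fun Q => ?_, h2⟩
    by_cases hQ : Q = P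
    · subst hQ; rw [h2]; simp
    · have := h1 Q
      rw [mem_insert]
      exact ⟨fun h => this.1 (h.resolve_left hQ), fun h => this.2 (fun h' => h (Or.inr h'))⟩

lemma LDP_lt (D : Finset T) (P : T) : LDP D P < LD D := by
  refine lt_of_le_of_ne (fun m hm => hm.1) fun h => ?_
  have hs : ∃ v : ZMod 2 × ZMod 2, v ≠ 0 ∧ Pi.single P v ∈ LD D := by
    by_cases hP : P ∈ D
    · refine ⟨(0, 1), by decide, fun Q => ?_⟩
      by_cases hQ : Q = P
      · subst hQ; simp [hP]
      · simp [Pi.single_eq_of_ne hQ]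
    · refine ⟨(1, 0), by decide, fun Q => ?_⟩
      by_cases hQ : Q = P
      · subst hQ; simp [hP]
      · simp [Pi.single_eq_of_ne hQ]
  obtain ⟨v, hv, hm⟩ := hs
  rw [← h] at hm
  have := hm.2
  rw [Pi.single_eq_same] at this
  exact hv this

lemma finrank_LDP (D : Finset T) (P : T) : finrank (ZMod 2) (LDP D P) + 1 ≤ Fintype.card T := by
  have h1 := Submodule.finrank_lt_finrank_of_lt (LDP_lt D P)
  have h2 := finrank_le (M := LD D) (fun m hm => qf_LD hm)
  omega

lemma orth_LDP_coord {D : Finset T} {P : T} {m : VT T} (hm : m ∈ (Bf T).orthogonal (LDP D P))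
    (Q : T) (hQ : Q ≠ P) : (Q ∈ D → (m Q).1 = 0) ∧ (Q ∉ D → (m Q).2 = 0) := by
  constructor
  · intro hD
    have h : Pi.single Q (0, 1) ∈ LDP D P := by
      refine ⟨fun R => ?_, by rw [Pi.single_eq_of_ne (Ne.symm hQ)]⟩
      by_cases hR : R = Q
      · subst hR; simp [hD]
      · simp [Pi.single_eq_of_ne hR]
    have h2 : Bf T (Pi.single Q (0, 1)) m = 0 := hm _ h
    rwa [Bf_symm, Bf_single2] at h2
  · intro hD
    have h : Pi.single Q (1, 0) ∈ LDP D P := by
      refine ⟨fun R => ?_, by rw [Pi.single_eq_of_ne (Ne.symm hQ)]⟩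
      by_cases hR : R = Q
      · subst hR; simp [hD]
      · simp [Pi.single_eq_of_ne hR]
    have h2 : Bf T (Pi.single Q (1, 0)) m = 0 := hm _ h
    rwa [Bf_symm, Bf_single1] at h2

/-- Main dimension count: `dim (M ∩ L_0^⊥) ≥ dim (M ∩ L_0) + 1`. -/
lemma finrank_orth {M : Submodule (ZMod 2) (VT T)} (hM : ∀ m ∈ M, qf m = 0)
    (hk : finrank (ZMod 2) M = Fintype.card T) (D : Finset T) (P : T) :
    finrank (ZMod 2) (M ⊓ LDP D P : Submodule (ZMod 2) (VT T)) + 1 ≤
      finrank (ZMod 2) (M ⊓ (Bf T).orthogonal (LDP D P) : Submodule (ZMod 2) (VT T)) := by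
  have h1 : (Bf T).orthogonal (M ⊔ LDP D P) ≤ M ⊓ (Bf T).orthogonal (LDP D P) := by
    intro m hm
    refine ⟨?_, fun n hn => hm n (Submodule.mem_sup_right hn)⟩
    have : m ∈ (Bf T).orthogonal M := fun n hn => hm n (Submodule.mem_sup_left hn)
    rwa [orth_eq hM hk] at this
  have h2 := Submodule.finrank_mono h1
  rw [LinearMap.BilinForm.finrank_orthogonal (Bf_nondeg (T := T)), finrank_VT] at h2
  have h3 := Submodule.finrank_sup_add_finrank_inf_eq M (LDP D P)
  have h4 := finrank_LDP D P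
  omega

/-- Some element of `M ∩ L_D` or of `M ∩ L_{D ∪ P}` is nontrivial at `P` (`P ∉ D`). -/
lemma flip_exists {M : Submodule (ZMod 2) (VT T)} (hM : ∀ m ∈ M, qf m = 0)
    (hk : finrank (ZMod 2) M = Fintype.card T) (D : Finset T) (P : T) (hP : P ∉ D) :
    Us M D P ∨ Us M (insert P D) P := by
  have h1 := finrank_orth hM hk D P
  have h2 : ∃ m ∈ M ⊓ (Bf T).orthogonal (LDP D P), m ∉ M ⊓ LDP D P := by
    by_contra hcon
    push Not at hcon
    have hle : M ⊓ (Bf T).orthogonal (LDP D P) ≤ M ⊓ LDP D P := hcon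
    have := Submodule.finrank_mono hle
    omega
  obtain ⟨m, hm, hm'⟩ := h2
  have hc := orth_LDP_coord hm.2
  have hmP : m P ≠ 0 := by
    intro h0
    apply hm'
    refine ⟨hm.1, fun Q => ?_, h0⟩
    by_cases hQ : Q = P
    · subst hQ; rw [h0]; simp
    · exact hc Q hQ
  have hq : (m P).1 * (m P).2 = 0 := by
    have h0 := hM m hm.1
    rw [qf, sum_eq_single P] at h0
    · exact h0
    · intro Q _ hQ
      by_cases hD : Q ∈ D
      · rw [(hc Q hQ).1 hD, zero_mul]
      · rw [(hc Q hQ).2 hD, mul_zero]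
    · intro h; exact absurd (mem_univ P) h
  rcases mul_eq_zero.mp hq with h | h
  · right
    refine ⟨m, ⟨hm.1, fun Q => ?_⟩, hmP⟩
    by_cases hQ : Q = P
    · subst hQ; simp [h]
    · rw [mem_insert]
      exact ⟨fun h' => (hc Q hQ).1 (h'.resolve_left hQ),
        fun h' => (hc Q hQ).2 (fun h'' => h' (Or.inr h''))⟩
  · left
    refine ⟨m, ⟨hm.1, fun Q => ?_⟩, hmP⟩
    by_cases hQ : Q = P
    · subst hQ; simp [h, hP]
    · exact hc Q hQ

/-- Not both. -/
lemma flip_not_both {M : Submodule (ZMod 2) (VT T)} (hM : ∀ m ∈ M, qf m = 0)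
    (D : Finset T) (P : T) (hP : P ∉ D) : ¬ (Us M D P ∧ Us M (insert P D) P) := by
  rintro ⟨⟨m, hm, hmP⟩, ⟨n, hn, hnP⟩⟩
  have h2 : Bf T m n = 0 := by
    have := qf_add m n
    rw [hM _ (M.add_mem hm.1 hn.1), hM _ hm.1, hM _ hn.1] at this
    simpa using this.symm
  have hm2 : (m P).2 = 0 := (hm.2 P).2 hP
  have hn1 : (n P).1 = 0 := (hn.2 P).1 (mem_insert_self P D)
  have hm1 : (m P).1 ≠ 0 := fun h => hmP (Prod.ext h hm2)
  have hn2 : (n P).2 ≠ 0 := fun h => hnP (Prod.ext hn1 h)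
  rw [Bf_apply, sum_eq_single P] at h2
  · rw [hm2, zero_mul, add_zero] at h2
    exact (mul_ne_zero hm1 hn2) h2
  · intro Q _ hQ
    by_cases hD : Q ∈ D
    · rw [(hm.2 Q).1 hD, (hn.2 Q).1 (mem_insert_of_mem hD)]; simp
    · rw [(hm.2 Q).2 hD, (hn.2 Q).2 (by rw [mem_insert]; exact fun h => h.elim hQ hD)]; simp
  · intro h; exact absurd (mem_univ P) h

lemma inf_LDP_eq {M : Submodule (ZMod 2) (VT T)} {D : Finset T} {P : T} (h : ¬ Us M D P) :
    M ⊓ LDP D P = M ⊓ LD D := by
  apply le_antisymm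
  · intro m hm; exact ⟨hm.1, hm.2.1⟩
  · intro m hm
    refine ⟨hm.1, hm.2, ?_⟩
    by_contra hne
    exact h ⟨m, hm, hne⟩

/-- The dimension of `M ∩ L_D` is one more than that of the part trivial at `P` if some element is
nontrivial at `P`. -/
lemma finrank_LDP_add {M : Submodule (ZMod 2) (VT T)} {D : Finset T} {P : T} (h : Us M D P) :
    finrank (ZMod 2) (M ⊓ LDP D P : Submodule (ZMod 2) (VT T)) + 1 = rk M D := by
  obtain ⟨m, hm, hmP⟩ := h
  have hlt : M ⊓ LDP D P < M ⊓ LD D := by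
    refine lt_of_le_of_ne (fun n hn => ⟨hn.1, hn.2.1⟩) fun heq => ?_
    rw [← heq] at hm
    exact hmP hm.2.2
  have h1 := Submodule.finrank_lt_finrank_of_lt hlt
  have h2 : (M ⊓ LD D : Submodule (ZMod 2) (VT T)) ≤
      (M ⊓ LDP D P) ⊔ Submodule.span (ZMod 2) {m} := by
    intro n hn
    by_cases h0 : n P = 0
    · exact Submodule.mem_sup_left ⟨hn.1, hn.2, h0⟩
    · have hnm : n P + m P = 0 := by
        have e1 : ∀ u v : ZMod 2, u ≠ 0 → v ≠ 0 → u + v = 0 := by decide
        by_cases hP : P ∈ D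
        · have a1 := (hn.2 P).1 hP
          have a2 := (hm.2 P).1 hP
          have b1 : (n P).2 ≠ 0 := fun h => h0 (Prod.ext a1 h)
          have b2 : (m P).2 ≠ 0 := fun h => hmP (Prod.ext a2 h)
          exact Prod.ext (by simp [a1, a2]) (by simpa using e1 _ _ b1 b2)
        · have a1 := (hn.2 P).2 hP
          have a2 := (hm.2 P).2 hP
          have b1 : (n P).1 ≠ 0 := fun h => h0 (Prod.ext h a1)
          have b2 : (m P).1 ≠ 0 := fun h => hmP (Prod.ext h a2)
          exact Prod.ext (by simpa using e1 _ _ b1 b2) (by simp [a1, a2])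
      have hsum : n + m ∈ M ⊓ LDP D P :=
        ⟨M.add_mem hn.1 hm.1, (LD D).add_mem hn.2 hm.2, hnm⟩
      have : n = (n + m) + m := by
        funext Q
        have e2 : ∀ u v : ZMod 2, u = u + v + v := by decide
        exact Prod.ext (e2 _ _) (e2 _ _)
      rw [this]
      exact Submodule.add_mem_sup hsum (Submodule.mem_span_singleton_self m)
  have h3 := Submodule.finrank_mono h2
  have h4 := Submodule.finrank_add_le_finrank_add_finrank (M ⊓ LDP D P)
    (Submodule.span (ZMod 2) {m})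
  have h5 : finrank (ZMod 2) (Submodule.span (ZMod 2) {m}) ≤ 1 :=
    (finrank_span_le_card ({m} : Set (VT T))).trans (by simp)
  rw [rk]
  omega

lemma finrank_LDP_eq {M : Submodule (ZMod 2) (VT T)} {D : Finset T} {P : T} (h : ¬ Us M D P) :
    finrank (ZMod 2) (M ⊓ LDP D P : Submodule (ZMod 2) (VT T)) = rk M D := by
  rw [inf_LDP_eq h, rk]

/-- FLIP: exactly one of the two sides is larger, by one. -/
theorem flip {M : Submodule (ZMod 2) (VT T)} (hM : ∀ m ∈ M, qf m = 0)
    (hk : finrank (ZMod 2) M = Fintype.card T) (D : Finset T) (P : T) (hP : P ∉ D) :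
    (Us M D P ∧ ¬ Us M (insert P D) P ∧ rk M D = rk M (insert P D) + 1) ∨
      (¬ Us M D P ∧ Us M (insert P D) P ∧ rk M (insert P D) = rk M D + 1) := by
  have h1 := flip_exists hM hk D P hP
  have h2 := flip_not_both hM D P hP
  by_cases h : Us M D P
  · left
    have h' : ¬ Us M (insert P D) P := fun h' => h2 ⟨h, h'⟩
    refine ⟨h, h', ?_⟩
    have a := finrank_LDP_add h
    have b := finrank_LDP_eq h'
    rw [LDP_insert] at b
    omega
  · right
    have h' := h1.resolve_left h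
    refine ⟨h, h', ?_⟩
    have a := finrank_LDP_eq h
    have b := finrank_LDP_add h'
    rw [LDP_insert] at b
    omega

end Pool.PRX
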