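import Mathlib

/-!
# Stability of the recursion `z (r+1) (1 - 2^-(r+1)) = z r 2^-r`
-/

namespace Pool.PRX

open Finset

/-- Stability with start value zero. -/
lemma stab0 {u ε : ℕ → ℝ} (h0 : u 0 = 0)
    (h : ∀ r, |u (r + 1) * (1 - (1 / 2) ^ (r + 1)) - u r * (1 / 2) ^ r| ≤ ε r) (R : ℕ) :
    ∑ r ∈ range (R + 1), |u r| * (1 - 2 * (1 / 2) ^ r) + (1 / 2) ^ R * |u R| ≤
      ∑ r ∈ range R, ε r := by
  induction R with
  | zero => simp [h0]
  | succ R ih =>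
    have a1 := sum_range_succ (fun r => |u r| * (1 - 2 * (1 / 2) ^ r)) (R + 1)
    have a2 := sum_range_succ ε R
    rw [a1, a2]
    have hp : (0 : ℝ) < (1 / 2) ^ R := by positivity
    have hp1 : ((1 : ℝ) / 2) ^ (R + 1) = (1 / 2) ^ R / 2 := by rw [pow_succ]; ring
    have hle : ((1 : ℝ) / 2) ^ (R + 1) ≤ 1 := pow_le_one₀ (by norm_num) (by norm_num)
    have h1 : |u (R + 1)| * (1 - (1 / 2) ^ (R + 1)) ≤ |u R| * (1 / 2) ^ R + ε R := by
      have h2 := h R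
      have h3 : |u (R + 1) * (1 - (1 / 2) ^ (R + 1))| ≤
          |u (R + 1) * (1 - (1 / 2) ^ (R + 1)) - u R * (1 / 2) ^ R| + |u R * (1 / 2) ^ R| := by
        have := abs_add_le (u (R + 1) * (1 - (1 / 2) ^ (R + 1)) - u R * (1 / 2) ^ R)
          (u R * (1 / 2) ^ R)
        simpa using this
      rw [abs_mul, abs_mul (u R), abs_of_nonneg (a := 1 - ((1 : ℝ) / 2) ^ (R + 1)) (by linarith),
        abs_of_pos hp] at h3
      linarith
    have e : |u (R + 1)| * (1 - 2 * (1 / 2) ^ (R + 1)) + (1 / 2) ^ (R + 1) * |u (R + 1)| =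
        |u (R + 1)| * (1 - (1 / 2) ^ (R + 1)) := by ring
    have e2 : ∑ r ∈ range (R + 1), |u r| * (1 - 2 * (1 / 2) ^ r) + |u R| * (1 / 2) ^ R ≤
        ∑ r ∈ range R, ε r := by linarith
    linarith

/-- Stability with start value zero, l^1 form. -/
lemma stab1 {u ε : ℕ → ℝ} {E : ℝ} (h0 : u 0 = 0)
    (h : ∀ r, |u (r + 1) * (1 - (1 / 2) ^ (r + 1)) - u r * (1 / 2) ^ r| ≤ ε r)
    (hE : ∀ R, ∑ r ∈ range R, ε r ≤ E) (R : ℕ) :
    ∑ r ∈ range R, |u r| ≤ 4 * E := by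
  have hE0 : 0 ≤ E := by simpa using hE 0
  have h1 : |u 1| ≤ 2 * E := by
    have h2 := h 0
    have h3 := hE 1
    simp [h0] at h2 h3
    rw [abs_of_pos (a := 1 - (2 : ℝ)⁻¹) (by norm_num)] at h2
    linarith
  rcases R with _ | R
  · simpa using hE0
  rcases R with _ | R
  · simpa [h0] using hE0
  rw [sum_range_succ', sum_range_succ', h0, abs_zero]
  have h2 := stab0 h0 h (R + 1)
  rw [sum_range_succ', sum_range_succ', h0, abs_zero] at h2
  have h3 := hE (R + 1)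
  have hp : (0 : ℝ) ≤ (1 / 2) ^ (R + 1) * |u (R + 1)| := by positivity
  have h4 : ∑ k ∈ range R, |u (k + 1 + 1)| * (1 / 2) ≤
      ∑ k ∈ range R, |u (k + 1 + 1)| * (1 - 2 * (1 / 2) ^ (k + 1 + 1)) := by
    refine sum_le_sum fun k _ => mul_le_mul_of_nonneg_left ?_ (abs_nonneg _)
    have : ((1 : ℝ) / 2) ^ (k + 1 + 1) = (1 / 2) ^ k / 4 := by rw [pow_succ, pow_succ]; ring
    have hk : ((1 : ℝ) / 2) ^ k ≤ 1 := pow_le_one₀ (by norm_num) (by norm_num)
    linarith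
  rw [← sum_mul] at h4
  norm_num at h2 h1 h4 ⊢
  linarith

/-- Stability: `z` is close to a multiple of any positive solution `p`. -/
lemma stab2 {z p ε : ℕ → ℝ} {E : ℝ} (hp0 : 0 < p 0)
    (hp : ∀ r, p (r + 1) * (1 - (1 / 2) ^ (r + 1)) = p r * (1 / 2) ^ r)
    (h : ∀ r, |z (r + 1) * (1 - (1 / 2) ^ (r + 1)) - z r * (1 / 2) ^ r| ≤ ε r)
    (hE : ∀ R, ∑ r ∈ range R, ε r ≤ E) (R : ℕ) :
    ∑ r ∈ range R, |z r - z 0 / p 0 * p r| ≤ 4 * E := by
  refine stab1 (u := fun r => z r - z 0 / p 0 * p r) ?_ ?_ hE R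
  · show z 0 - z 0 / p 0 * p 0 = 0
    field_simp
    ring
  · intro r
    have e : (z (r + 1) - z 0 / p 0 * p (r + 1)) * (1 - (1 / 2) ^ (r + 1)) -
        (z r - z 0 / p 0 * p r) * (1 / 2) ^ r =
        z (r + 1) * (1 - (1 / 2) ^ (r + 1)) - z r * (1 / 2) ^ r := by
      have := hp r
      linear_combination (-(z 0 / p 0)) * this
    show |(z (r + 1) - z 0 / p 0 * p (r + 1)) * (1 - (1 / 2) ^ (r + 1)) -
        (z r - z 0 / p 0 * p r) * (1 / 2) ^ r| ≤ ε r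
    rw [e]
    exact h r

/-- Stability with a normalisation: on a set `A` of indices the sums of `z` are eventually `1` and
the sums of `p` tend to `σ > 0`. -/
lemma stab3 {z p ε : ℕ → ℝ} {E σ : ℝ} (hp0 : 0 < p 0) (hpn : ∀ r, 0 ≤ p r)
    (hp : ∀ r, p (r + 1) * (1 - (1 / 2) ^ (r + 1)) = p r * (1 / 2) ^ r)
    (h : ∀ r, |z (r + 1) * (1 - (1 / 2) ^ (r + 1)) - z r * (1 / 2) ^ r| ≤ ε r)
    (hE : ∀ R, ∑ r ∈ range R, ε r ≤ E) (A : ℕ → Prop) [DecidablePred A] (hσ : 0 < σ)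
    (hz1 : ∃ R0, ∀ R ≥ R0, ∑ r ∈ range R, (if A r then z r else 0) = 1)
    (hp1 : HasSum (fun r => if A r then p r else 0) σ) (hps : HasSum p 1) (R : ℕ) :
    ∑ r ∈ range R, |z r - σ⁻¹ * p r| ≤ (4 + 4 / σ) * E := by
  have hE0 : 0 ≤ E := by simpa using hE 0
  set c := z 0 / p 0 with hc
  have hs := stab2 hp0 hp h hE
  -- the constant
  have hlim : Filter.Tendsto (fun R => ∑ r ∈ range R, (if A r then p r else 0)) Filter.atTop
      (nhds σ) := hp1.tendsto_sum_nat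
  have hbd : ∀ᶠ R in Filter.atTop,
      |1 - c * ∑ r ∈ range R, (if A r then p r else 0)| ≤ 4 * E := by
    obtain ⟨R0, hR0⟩ := hz1
    filter_upwards [Filter.eventually_ge_atTop R0] with R hR
    rw [← hR0 R hR, mul_sum, ← sum_sub_distrib]
    refine (abs_sum_le_sum_abs _ _).trans ((sum_le_sum fun r _ => ?_).trans (hs R))
    by_cases hA : A r
    · simp [hA, hc]
    · simp [hA]
  have hcσ : |1 - c * σ| ≤ 4 * E := by
    have ht : Filter.Tendsto (fun R => |1 - c * ∑ r ∈ range R, (if A r then p r else 0)|)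
        Filter.atTop (nhds |1 - c * σ|) := ((hlim.const_mul c).const_sub 1).abs
    exact le_of_tendsto ht hbd
  have hcc : |c - σ⁻¹| ≤ 4 * E / σ := by
    have e : c - σ⁻¹ = -(1 - c * σ) / σ := by field_simp; ring
    rw [e, abs_div, abs_neg, abs_of_pos hσ]
    exact div_le_div_of_nonneg_right hcσ hσ.le
  have hpR : ∑ r ∈ range R, p r ≤ 1 := hps.summable.sum_le_tsum _ (fun r _ => hpn r) |>.trans_eq
    hps.tsum_eq
  have hfin : ∑ r ∈ range R, |z r - σ⁻¹ * p r| ≤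
      ∑ r ∈ range R, (|z r - c * p r| + |c - σ⁻¹| * p r) := by
    refine sum_le_sum fun r _ => ?_
    have e : z r - σ⁻¹ * p r = (z r - c * p r) + (c - σ⁻¹) * p r := by ring
    rw [e]
    refine (abs_add_le _ _).trans ?_
    rw [abs_mul, abs_of_nonneg (hpn r)]
  rw [sum_add_distrib, ← mul_sum] at hfin
  have h5 : |c - σ⁻¹| * ∑ r ∈ range R, p r ≤ 4 * E / σ * 1 :=
    mul_le_mul hcc hpR (sum_nonneg fun r _ => hpn r) (by positivity)
  have h6 := hs R
  have e7 : (4 + 4 / σ) * E = 4 * E + 4 * E / σ * 1 := by ring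
  rw [e7]
  linarith

end Pool.PRX
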