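import Pool.Agent.H32.PRL.Slice
import Pool.Agent.H32.PRL.Stab
import Pool.Agent.H25.PRD.Iden

/-!
# The Poonen-Rains law on the slices `|D| = j` for a Lagrangian `M` with balanced supports
-/

set_option linter.unusedSectionVars false

namespace Pool.PRX

open Finset Module Pool.PRD

variable {T : Type*} [Fintype T] [DecidableEq T]

/-- The proportion of the `D` with `|D| = j` and `dim M ∩ L_D = r`. -/
noncomputable def X (M : Submodule (ZMod 2) (VT T)) (j r : ℕ) : ℝ :=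
  (((Sl T j).filter fun D => rk M D = r).card : ℝ) / (Fintype.card T).choose j

/-- The deviation at `D` of the size of the union of the supports in `D^c`. -/
noncomputable def dU (M : Submodule (ZMod 2) (VT T)) (D : Finset T) : ℝ :=
  |((Uf M D Dᶜ).card : ℝ) / Dᶜ.card - (1 - (1 / 2) ^ rk M D)|

/-- The deviation at `D` of the size of the union of the supports in `D`. -/
noncomputable def dD (M : Submodule (ZMod 2) (VT T)) (D : Finset T) : ℝ :=
  |((Uf M D D).card : ℝ) / D.card - (1 - (1 / 2) ^ rk M D)|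

noncomputable def eU (M : Submodule (ZMod 2) (VT T)) (j r : ℕ) : ℝ :=
  (∑ D ∈ (Sl T j).filter (fun D => rk M D = r), dU M D) / (Fintype.card T).choose j

noncomputable def eD (M : Submodule (ZMod 2) (VT T)) (j r : ℕ) : ℝ :=
  (∑ D ∈ (Sl T j).filter (fun D => rk M D = r), dD M D) / (Fintype.card T).choose j

lemma abs_sub_half_le {U a c : ℝ} (hU : 0 ≤ U) (hUa : U ≤ a) (hc0 : 0 ≤ c) (hc1 : c ≤ 1) :
    |U / a - (1 - c)| ≤ 1 := by
  have h0 : 0 ≤ U / a := div_nonneg hU (hU.trans hUa)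
  have h1 : U / a ≤ 1 := div_le_one_of_le₀ hUa (hU.trans hUa)
  rw [abs_le]; constructor <;> linarith

lemma half_pow_nonneg (r : ℕ) : (0 : ℝ) ≤ (1 / 2) ^ r := by positivity
lemma half_pow_le_one (r : ℕ) : ((1 : ℝ) / 2) ^ r ≤ 1 := pow_le_one₀ (by norm_num) (by norm_num)

lemma dU_nonneg (M : Submodule (ZMod 2) (VT T)) (D : Finset T) : 0 ≤ dU M D := abs_nonneg _
lemma dD_nonneg (M : Submodule (ZMod 2) (VT T)) (D : Finset T) : 0 ≤ dD M D := abs_nonneg _

lemma dU_le_one (M : Submodule (ZMod 2) (VT T)) (D : Finset T) : dU M D ≤ 1 :=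
  abs_sub_half_le (Nat.cast_nonneg _) (by exact_mod_cast Uf_card_le M D Dᶜ) (half_pow_nonneg _)
    (half_pow_le_one _)

lemma dD_le_one (M : Submodule (ZMod 2) (VT T)) (D : Finset T) : dD M D ≤ 1 :=
  abs_sub_half_le (Nat.cast_nonneg _) (by exact_mod_cast Uf_card_le M D D) (half_pow_nonneg _)
    (half_pow_le_one _)

lemma dev_le {η U a c : ℝ} (ha : 0 < a) (h : |U - c * a| ≤ 2 * η * a) : |U / a - c| ≤ 2 * η := by
  have e : U / a - c = (U - c * a) / a := by field_simp
  rw [e, abs_div, abs_of_pos ha, div_le_iff₀ ha]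
  exact h

lemma dU_le {η : ℝ} (hη : 0 ≤ η) {M : Submodule (ZMod 2) (VT T)} {D : Finset T}
    (hc : 0 < Dᶜ.card) (h : Bal η M D Dᶜ) : dU M D ≤ 2 * η :=
  dev_le (by exact_mod_cast hc) (code hη h)

lemma dD_le {η : ℝ} (hη : 0 ≤ η) {M : Submodule (ZMod 2) (VT T)} {D : Finset T}
    (hc : 0 < D.card) (h : Bal η M D D) : dD M D ≤ 2 * η :=
  dev_le (by exact_mod_cast hc) (code hη h)

lemma choose_pos' {j : ℕ} (hj : j ≤ Fintype.card T) : (0 : ℝ) < (Fintype.card T).choose j := by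
  exact_mod_cast Nat.choose_pos hj

open Classical in
/-- Summation of a nonnegative function over the levels. -/
lemma sum_levels_le (S : Finset (Finset T)) (ρ : Finset T → ℕ) (f : Finset T → ℝ)
    (hf : ∀ D, 0 ≤ f D) (R : ℕ) :
    ∑ r ∈ range R, ∑ D ∈ S.filter (fun D => ρ D = r), f D ≤ ∑ D ∈ S, f D := by
  simp only [sum_filter]
  rw [sum_comm]
  refine sum_le_sum fun D _ => ?_
  rw [sum_ite_eq]
  split_ifs
  · exact le_rfl
  · exact hf D

open Classical in
lemma sum_dev_le {η δ : ℝ} (hη : 0 ≤ η) (S : Finset (Finset T)) (f : Finset T → ℝ)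
    (B : Finset T → Prop) {N : ℝ} (hN : (S.card : ℝ) = N)
    (hf1 : ∀ D ∈ S, f D ≤ 1) (hf2 : ∀ D ∈ S, B D → f D ≤ 2 * η)
    (hbad : ((S.filter fun D => ¬ B D).card : ℝ) ≤ δ * N) :
    ∑ D ∈ S, f D ≤ (2 * η + δ) * N := by
  have h1 : ∑ D ∈ S, f D ≤ ∑ D ∈ S, (2 * η + if ¬ B D then 1 else 0) := by
    refine sum_le_sum fun D hD => ?_
    by_cases hB : B D
    · simpa [hB] using hf2 D hD hB
    · simp only [hB, not_false_eq_true, if_true]
      linarith [hf1 D hD]
  refine h1.trans ?_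
  rw [sum_add_distrib, sum_const, nsmul_eq_mul, hN, sum_boole]
  linarith

open Classical in
lemma sum_eU_le {η δ : ℝ} (hη : 0 ≤ η) {M : Submodule (ZMod 2) (VT T)} {j : ℕ}
    (hj : j < Fintype.card T)
    (h1 : (((Sl T j).filter fun D => ¬ Bal η M D Dᶜ).card : ℝ) ≤
      δ * (Fintype.card T).choose j) (R : ℕ) :
    ∑ r ∈ range R, eU M j r ≤ 2 * η + δ := by
  simp only [eU]
  rw [← sum_div, div_le_iff₀ (choose_pos' hj.le)]
  refine (sum_levels_le _ _ _ (dU_nonneg M) R).trans ?_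
  refine sum_dev_le hη _ _ (fun D => Bal η M D Dᶜ) (by rw [card_Sl]) (fun D _ => dU_le_one M D) ?_ h1
  intro D hD hB
  refine dU_le hη ?_ hB
  rw [mem_Sl] at hD
  rw [card_compl, hD]
  omega

open Classical in
lemma sum_eD_le {η δ : ℝ} (hη : 0 ≤ η) {M : Submodule (ZMod 2) (VT T)} {j : ℕ}
    (hj : j < Fintype.card T)
    (h2 : (((Sl T (j + 1)).filter fun D => ¬ Bal η M D D).card : ℝ) ≤
      δ * (Fintype.card T).choose (j + 1)) (R : ℕ) :
    ∑ r ∈ range R, eD M (j + 1) r ≤ 2 * η + δ := by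
  simp only [eD]
  rw [← sum_div, div_le_iff₀ (choose_pos' hj)]
  refine (sum_levels_le _ _ _ (dD_nonneg M) R).trans ?_
  refine sum_dev_le hη _ _ (fun D => Bal η M D D) (by rw [card_Sl]) (fun D _ => dD_le_one M D) ?_ h2
  intro D hD hB
  refine dD_le hη ?_ hB
  rw [mem_Sl] at hD
  omega

lemma eU_nonneg (M : Submodule (ZMod 2) (VT T)) (j r : ℕ) : 0 ≤ eU M j r :=
  div_nonneg (sum_nonneg fun D _ => dU_nonneg M D) (Nat.cast_nonneg _)

lemma eD_nonneg (M : Submodule (ZMod 2) (VT T)) (j r : ℕ) : 0 ≤ eD M j r :=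
  div_nonneg (sum_nonneg fun D _ => dD_nonneg M D) (Nat.cast_nonneg _)

/-- Averages: `(1/N) ∑ g` against `c · #S / N`. -/
lemma avg_sub_le (S : Finset (Finset T)) (g : Finset T → ℝ) (c N : ℝ) (hN : 0 < N) :
    |(S.card : ℝ) / N * c - (∑ D ∈ S, g D) / N| ≤ (∑ D ∈ S, |g D - c|) / N := by
  have e : (S.card : ℝ) / N * c - (∑ D ∈ S, g D) / N = -(∑ D ∈ S, (g D - c)) / N := by
    rw [sum_sub_distrib, sum_const, nsmul_eq_mul]; field_simp; ring
  rw [e, abs_div, abs_neg, abs_of_pos hN]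
  exact div_le_div_of_nonneg_right (abs_sum_le_sum_abs _ _) hN.le

lemma avg_U (M : Submodule (ZMod 2) (VT T)) {j : ℕ} (hj : j < Fintype.card T) (r : ℕ) :
    |X M j r * (1 - (1 / 2) ^ r) - (∑ D ∈ (Sl T j).filter (fun D => rk M D = r),
      ((Uf M D Dᶜ).card : ℝ)) / (((Fintype.card T).choose j : ℝ) * (Fintype.card T - j : ℝ))| ≤
      eU M j r := by
  have h := avg_sub_le ((Sl T j).filter fun D => rk M D = r)
    (fun D => ((Uf M D Dᶜ).card : ℝ) / Dᶜ.card) (1 - (1 / 2) ^ r) _ (choose_pos' hj.le)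
  have e1 : (∑ D ∈ (Sl T j).filter (fun D => rk M D = r), ((Uf M D Dᶜ).card : ℝ) / Dᶜ.card) /
      (Fintype.card T).choose j = (∑ D ∈ (Sl T j).filter (fun D => rk M D = r),
      ((Uf M D Dᶜ).card : ℝ)) / (((Fintype.card T).choose j : ℝ) * (Fintype.card T - j : ℝ)) := by
    have : ∀ D ∈ (Sl T j).filter (fun D => rk M D = r), ((Uf M D Dᶜ).card : ℝ) / Dᶜ.card =
        ((Uf M D Dᶜ).card : ℝ) / (Fintype.card T - j : ℝ) := by
      intro D hD
      rw [mem_filter, mem_Sl] at hD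
      rw [card_compl, hD.1, Nat.cast_sub hj.le]
    rw [sum_congr rfl this, ← sum_div, div_div, mul_comm]
  have e2 : ∑ D ∈ (Sl T j).filter (fun D => rk M D = r),
      |((Uf M D Dᶜ).card : ℝ) / Dᶜ.card - (1 - (1 / 2) ^ r)| =
      ∑ D ∈ (Sl T j).filter (fun D => rk M D = r), dU M D := by
    refine sum_congr rfl fun D hD => ?_
    rw [mem_filter] at hD
    rw [dU, hD.2]
  rw [e1, e2] at h
  exact h

lemma avg_D (M : Submodule (ZMod 2) (VT T)) {j : ℕ} (hj : j + 1 ≤ Fintype.card T) (r : ℕ) :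
    |X M (j + 1) r * (1 - (1 / 2) ^ r) - (∑ D ∈ (Sl T (j + 1)).filter (fun D => rk M D = r),
      ((Uf M D D).card : ℝ)) / (((Fintype.card T).choose (j + 1) : ℝ) * (j + 1 : ℝ))| ≤
      eD M (j + 1) r := by
  have h := avg_sub_le ((Sl T (j + 1)).filter fun D => rk M D = r)
    (fun D => ((Uf M D D).card : ℝ) / D.card) (1 - (1 / 2) ^ r) _ (choose_pos' hj)
  have e1 : (∑ D ∈ (Sl T (j + 1)).filter (fun D => rk M D = r), ((Uf M D D).card : ℝ) / D.card) /
      (Fintype.card T).choose (j + 1) = (∑ D ∈ (Sl T (j + 1)).filter (fun D => rk M D = r),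
      ((Uf M D D).card : ℝ)) / (((Fintype.card T).choose (j + 1) : ℝ) * (j + 1 : ℝ)) := by
    have : ∀ D ∈ (Sl T (j + 1)).filter (fun D => rk M D = r), ((Uf M D D).card : ℝ) / D.card =
        ((Uf M D D).card : ℝ) / (j + 1 : ℝ) := by
      intro D hD
      rw [mem_filter, mem_Sl] at hD
      rw [hD.1]; push_cast; rfl
    rw [sum_congr rfl this, ← sum_div, div_div, mul_comm]
  have e2 : ∑ D ∈ (Sl T (j + 1)).filter (fun D => rk M D = r),
      |((Uf M D D).card : ℝ) / D.card - (1 - (1 / 2) ^ r)| =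
      ∑ D ∈ (Sl T (j + 1)).filter (fun D => rk M D = r), dD M D := by
    refine sum_congr rfl fun D hD => ?_
    rw [mem_filter] at hD
    rw [dD, hD.2]
  rw [e1, e2] at h
  exact h

lemma choose_edge {j : ℕ} (hj : j < Fintype.card T) :
    ((Fintype.card T).choose j : ℝ) * (Fintype.card T - j : ℝ) =
      ((Fintype.card T).choose (j + 1) : ℝ) * (j + 1 : ℝ) := by
  have h := Nat.choose_succ_right_eq (Fintype.card T) j
  have h2 : (((Fintype.card T).choose (j + 1) * (j + 1) : ℕ) : ℝ) =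
      (((Fintype.card T).choose j * (Fintype.card T - j) : ℕ) : ℝ) := by rw [h]
  push_cast [Nat.cast_sub hj.le] at h2
  exact h2.symm

variable {M : Submodule (ZMod 2) (VT T)}

lemma X_as_sum (M : Submodule (ZMod 2) (VT T)) {j : ℕ} (hj : j ≤ Fintype.card T) (r : ℕ) {c : ℝ}
    (hc : c ≠ 0) : X M j r = (∑ _D ∈ (Sl T j).filter (fun D => rk M D = r), c) /
      (((Fintype.card T).choose j : ℝ) * c) := by
  have := (choose_pos' (T := T) hj).ne'
  rw [X, sum_const, nsmul_eq_mul]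
  field_simp

/-- Recursion, slice `j` at level `r+1` against slice `j+1` at level `r`. -/
lemma recA (hM : ∀ m ∈ M, qf m = 0) (hk : finrank (ZMod 2) M = Fintype.card T) {j : ℕ}
    (hj : j < Fintype.card T) (r : ℕ) :
    |X M j (r + 1) * (1 - (1 / 2) ^ (r + 1)) - X M (j + 1) r * (1 / 2) ^ r| ≤
      eU M j (r + 1) + eD M (j + 1) r := by
  have h1 := avg_U M hj (r + 1)
  have h2 := avg_D M hj r
  have h3 := edges_down hM hk j r
  have hc : (j + 1 : ℝ) ≠ 0 := by positivity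
  have h4 : ∑ D ∈ (Sl T (j + 1)).filter (fun D => rk M D = r), ((D.card : ℝ) - (Uf M D D).card) =
      ∑ D ∈ (Sl T (j + 1)).filter (fun D => rk M D = r), (j + 1 : ℝ) -
      ∑ D ∈ (Sl T (j + 1)).filter (fun D => rk M D = r), ((Uf M D D).card : ℝ) := by
    rw [← sum_sub_distrib]
    refine sum_congr rfl fun D hD => ?_
    rw [mem_filter, mem_Sl] at hD
    rw [hD.1]; push_cast; rfl
  rw [h3, h4, choose_edge hj, sub_div, ← X_as_sum M hj r hc] at h1
  set Z := (∑ D ∈ (Sl T (j + 1)).filter (fun D => rk M D = r),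
      ((Uf M D D).card : ℝ)) / (((Fintype.card T).choose (j + 1) : ℝ) * (j + 1 : ℝ)) with hZ
  have e : X M j (r + 1) * (1 - (1 / 2) ^ (r + 1)) - X M (j + 1) r * (1 / 2) ^ r =
      (X M j (r + 1) * (1 - (1 / 2) ^ (r + 1)) - (X M (j + 1) r - Z)) +
      (X M (j + 1) r * (1 - (1 / 2) ^ r) - Z) := by ring
  rw [e]
  exact (abs_add_le _ _).trans (add_le_add h1 h2)

/-- Recursion, slice `j+1` at level `r+1` against slice `j` at level `r`. -/
lemma recB (hM : ∀ m ∈ M, qf m = 0) (hk : finrank (ZMod 2) M = Fintype.card T) {j : ℕ}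
    (hj : j < Fintype.card T) (r : ℕ) :
    |X M (j + 1) (r + 1) * (1 - (1 / 2) ^ (r + 1)) - X M j r * (1 / 2) ^ r| ≤
      eD M (j + 1) (r + 1) + eU M j r := by
  have h1 := avg_D M hj (r + 1)
  have h2 := avg_U M hj r
  have h3 := edges_up hM hk j r
  have hc : (Fintype.card T - j : ℝ) ≠ 0 := by
    have : (j : ℝ) < Fintype.card T := by exact_mod_cast hj
    exact (sub_pos.mpr this).ne'
  have h4 : ∑ D ∈ (Sl T j).filter (fun D => rk M D = r), ((Dᶜ.card : ℝ) - (Uf M D Dᶜ).card) =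
      ∑ D ∈ (Sl T j).filter (fun D => rk M D = r), (Fintype.card T - j : ℝ) -
      ∑ D ∈ (Sl T j).filter (fun D => rk M D = r), ((Uf M D Dᶜ).card : ℝ) := by
    rw [← sum_sub_distrib]
    refine sum_congr rfl fun D hD => ?_
    rw [mem_filter, mem_Sl] at hD
    rw [card_compl, hD.1, Nat.cast_sub hj.le]
  rw [← h3, h4, ← choose_edge hj, sub_div, ← X_as_sum M hj.le r hc] at h1
  set Z := (∑ D ∈ (Sl T j).filter (fun D => rk M D = r),
      ((Uf M D Dᶜ).card : ℝ)) / (((Fintype.card T).choose j : ℝ) * (Fintype.card T - j : ℝ))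
      with hZ
  have e : X M (j + 1) (r + 1) * (1 - (1 / 2) ^ (r + 1)) - X M j r * (1 / 2) ^ r =
      (X M (j + 1) (r + 1) * (1 - (1 / 2) ^ (r + 1)) - (X M j r - Z)) +
      (X M j r * (1 - (1 / 2) ^ r) - Z) := by ring
  rw [e]
  exact (abs_add_le _ _).trans (add_le_add h1 h2)

lemma rk_le (hM : ∀ m ∈ M, qf m = 0) (D : Finset T) : rk M D ≤ Fintype.card T :=
  finrank_le (fun m hm => hM m hm.1)

lemma X_nonneg (M : Submodule (ZMod 2) (VT T)) (j r : ℕ) : 0 ≤ X M j r :=
  div_nonneg (Nat.cast_nonneg _) (Nat.cast_nonneg _)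

/-- No `D` of the wrong parity. -/
lemma X_parity (hM : ∀ m ∈ M, qf m = 0) (hk : finrank (ZMod 2) M = Fintype.card T) {j r : ℕ}
    (hr : r % 2 ≠ (rk M ∅ + j) % 2) : X M j r = 0 := by
  have : (Sl T j).filter (fun D => rk M D = r) = ∅ := by
    rw [filter_eq_empty_iff]
    intro D hD hrk
    rw [mem_Sl] at hD
    have := rk_parity hM hk D
    rw [hD, hrk] at this
    exact hr this
  rw [X, this]; simp

/-- The proportions add up to one. -/
lemma X_sum (hM : ∀ m ∈ M, qf m = 0) {j : ℕ}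
    (hj : j ≤ Fintype.card T) {R : ℕ} (hR : Fintype.card T < R) :
    ∑ r ∈ range R, X M j r = 1 := by
  simp only [X]
  rw [← sum_div, div_eq_one_iff_eq (choose_pos' hj).ne', ← card_Sl, ← Nat.cast_sum]
  congr 1
  exact (card_eq_sum_card_fiberwise (f := fun D => rk M D) (s := Sl T j) (t := range R)
    (fun D _ => by simpa using lt_of_le_of_lt (rk_le hM D) hR)).symm

open Classical in
/-- SLICE LAW. -/
theorem slice_law (hM : ∀ m ∈ M, qf m = 0) (hk : finrank (ZMod 2) M = Fintype.card T) {j : ℕ}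
    (hj : j < Fintype.card T) {η δ : ℝ} (hη : 0 ≤ η)
    (h1 : (((Sl T j).filter fun D => ¬ Bal η M D Dᶜ).card : ℝ) ≤
      δ * (Fintype.card T).choose j)
    (h2 : (((Sl T (j + 1)).filter fun D => ¬ Bal η M D D).card : ℝ) ≤
      δ * (Fintype.card T).choose (j + 1)) (R : ℕ) :
    ∑ r ∈ range R, |X M j r - if r % 2 = (rk M ∅ + j) % 2 then 2 * PR r else 0| ≤
        96 * η + 48 * δ ∧
      ∑ r ∈ range R, |X M (j + 1) r - if r % 2 = (rk M ∅ + (j + 1)) % 2 then 2 * PR r else 0| ≤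
        96 * η + 48 * δ := by
  set s := rk M ∅ + j with hs
  let z : ℕ → ℝ := fun r => if r % 2 = s % 2 then X M j r else X M (j + 1) r
  let ε : ℕ → ℝ := fun r => if r % 2 = s % 2 then eD M (j + 1) (r + 1) + eU M j r
    else eU M j (r + 1) + eD M (j + 1) r
  have hz : ∀ r, |z (r + 1) * (1 - (1 / 2) ^ (r + 1)) - z r * (1 / 2) ^ r| ≤ ε r := by
    intro r
    by_cases hr : r % 2 = s % 2
    · have hr' : ¬ (r + 1) % 2 = s % 2 := by omega
      simp only [z, ε, hr, hr', if_true, if_false]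
      exact recB hM hk hj r
    · have hr' : (r + 1) % 2 = s % 2 := by omega
      simp only [z, ε, hr, hr', if_true, if_false]
      exact recA hM hk hj r
  have hE : ∀ R, ∑ r ∈ range R, ε r ≤ 4 * (2 * η + δ) := by
    intro R
    have a1 := sum_eU_le hη hj h1 (R + 1)
    have a2 := sum_eD_le hη hj h2 (R + 1)
    have b : ∑ r ∈ range R, ε r ≤ ∑ r ∈ range R, ((eU M j r + eD M (j + 1) r) +
        (eU M j (r + 1) + eD M (j + 1) (r + 1))) := by
      refine sum_le_sum fun r _ => ?_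
      have c1 := eU_nonneg M j r
      have c2 := eU_nonneg M j (r + 1)
      have c3 := eD_nonneg M (j + 1) r
      have c4 := eD_nonneg M (j + 1) (r + 1)
      by_cases hr : r % 2 = s % 2
      · simp only [ε, hr, if_true]; linarith
      · simp only [ε, hr, if_false]; linarith
    rw [sum_add_distrib, sum_add_distrib, sum_add_distrib] at b
    have d1 : ∑ r ∈ range R, eU M j r ≤ ∑ r ∈ range (R + 1), eU M j r := by
      rw [sum_range_succ]; linarith [eU_nonneg M j R]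
    have d2 : ∑ r ∈ range R, eU M j (r + 1) ≤ ∑ r ∈ range (R + 1), eU M j r := by
      rw [sum_range_succ']; linarith [eU_nonneg M j 0]
    have d3 : ∑ r ∈ range R, eD M (j + 1) r ≤ ∑ r ∈ range (R + 1), eD M (j + 1) r := by
      rw [sum_range_succ]; linarith [eD_nonneg M (j + 1) R]
    have d4 : ∑ r ∈ range R, eD M (j + 1) (r + 1) ≤ ∑ r ∈ range (R + 1), eD M (j + 1) r := by
      rw [sum_range_succ']; linarith [eD_nonneg M (j + 1) 0]
    linarith
  have hz1 : ∃ R0, ∀ R ≥ R0, ∑ r ∈ range R, (if r % 2 = s % 2 then z r else 0) = 1 := by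
    refine ⟨Fintype.card T + 1, fun R hR => ?_⟩
    rw [← X_sum hM hj.le (R := R) (by omega)]
    refine sum_congr rfl fun r _ => ?_
    by_cases hr : r % 2 = s % 2
    · simp only [z, hr, if_true]
    · simp only [hr, if_false]
      exact (X_parity hM hk hr).symm
  have hfin := stab3 (z := z) (p := PR) (ε := ε) (E := 4 * (2 * η + δ)) (σ := 1 / 2) (PR_pos 0)
    (fun r => (PR_pos r).le) (fun r => by rw [mul_comm, PR_rec, mul_comm]) hz hE
    (fun r => r % 2 = s % 2) (by norm_num) hz1 (hasSum_parity s) hasSum_PR R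
  have e0 : (4 + 4 / (1 / 2 : ℝ)) * (4 * (2 * η + δ)) = 96 * η + 48 * δ := by ring
  rw [e0] at hfin
  constructor
  · refine (sum_le_sum fun r _ => ?_).trans hfin
    by_cases hr : r % 2 = s % 2
    · simp only [z, hr, if_true]; norm_num
    · simp only [hr, if_false]
      rw [X_parity hM hk hr]; simp
  · refine (sum_le_sum fun r _ => ?_).trans hfin
    by_cases hr : r % 2 = s % 2
    · have hr' : ¬ r % 2 = (rk M ∅ + (j + 1)) % 2 := by omega
      rw [X_parity hM hk hr']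
      simp only [hr', if_false]; simp
    · have hr' : r % 2 = (rk M ∅ + (j + 1)) % 2 := by omega
      have ez : z r = X M (j + 1) r := if_neg hr
      rw [if_pos hr', ez]; norm_num

end Pool.PRX
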