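import Pool.Agent.H32.PRL.Code

/-!
# Slices of the cube of the `D ⊆ T` and the edges between them
-/

set_option linter.unusedSectionVars false

namespace Pool.PRX

open Finset Module

variable {T : Type*} [Fintype T] [DecidableEq T]

/-- The slice of the `D` with `j` elements. -/
def Sl (T : Type*) [Fintype T] (j : ℕ) : Finset (Finset T) := univ.powersetCard j

lemma mem_Sl {j : ℕ} {D : Finset T} : D ∈ Sl T j ↔ D.card = j := by
  simp [Sl, mem_powersetCard]

lemma card_Sl (j : ℕ) : (Sl T j).card = (Fintype.card T).choose j := by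
  rw [Sl, card_powersetCard, card_univ]

/-- Summation over the edges between two slices. -/
lemma sum_edges (j : ℕ) (F : Finset T → T → ℝ) :
    ∑ D ∈ Sl T j, ∑ P ∈ Dᶜ, F D P = ∑ D ∈ Sl T (j + 1), ∑ P ∈ D, F (D.erase P) P := by
  rw [sum_sigma', sum_sigma']
  refine sum_bij' (fun x _ => ⟨insert x.2 x.1, x.2⟩) (fun x _ => ⟨x.1.erase x.2, x.2⟩) ?_ ?_ ?_ ?_ ?_
  · rintro ⟨D, P⟩ h
    simp only [mem_sigma, mem_Sl, mem_compl] at h ⊢
    exact ⟨by rw [card_insert_of_notMem h.2, h.1], mem_insert_self _ _⟩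
  · rintro ⟨D, P⟩ h
    simp only [mem_sigma, mem_Sl, mem_compl] at h ⊢
    exact ⟨by rw [card_erase_of_mem h.2, h.1]; rfl, notMem_erase _ _⟩
  · rintro ⟨D, P⟩ h
    simp only [mem_sigma, mem_Sl, mem_compl] at h
    simp [erase_insert h.2]
  · rintro ⟨D, P⟩ h
    simp only [mem_sigma, mem_Sl] at h
    simp [insert_erase h.2]
  · rintro ⟨D, P⟩ h
    simp only [mem_sigma, mem_Sl, mem_compl] at h
    simp [erase_insert h.2]

variable {M : Submodule (ZMod 2) (VT T)}

open Classical in
/-- Upward edges that lose dimension. -/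
lemma edges_down (hM : ∀ m ∈ M, qf m = 0) (hk : finrank (ZMod 2) M = Fintype.card T) (j r : ℕ) :
    ∑ D ∈ (Sl T j).filter (fun D => rk M D = r + 1), ((Uf M D Dᶜ).card : ℝ) =
      ∑ D ∈ (Sl T (j + 1)).filter (fun D => rk M D = r), ((D.card : ℝ) - (Uf M D D).card) := by
  have h := sum_edges j (fun D P => if rk M D = r + 1 ∧ Us M D P then (1 : ℝ) else 0)
  have h1 : ∑ D ∈ Sl T j, ∑ P ∈ Dᶜ, (if rk M D = r + 1 ∧ Us M D P then (1 : ℝ) else 0) =
      ∑ D ∈ (Sl T j).filter (fun D => rk M D = r + 1), ((Uf M D Dᶜ).card : ℝ) := by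
    rw [sum_filter]
    refine sum_congr rfl fun D _ => ?_
    by_cases hr : rk M D = r + 1
    · rw [if_pos hr, Uf, card_filter]
      push_cast
      refine sum_congr rfl fun P _ => ?_
      simp [hr]
    · rw [if_neg hr]
      refine sum_eq_zero fun P _ => ?_
      rw [if_neg (fun h' => hr h'.1)]
  have h2 : ∑ D ∈ Sl T (j + 1), ∑ P ∈ D,
      (if rk M (D.erase P) = r + 1 ∧ Us M (D.erase P) P then (1 : ℝ) else 0) =
      ∑ D ∈ (Sl T (j + 1)).filter (fun D => rk M D = r), ((D.card : ℝ) - (Uf M D D).card) := by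
    rw [sum_filter]
    refine sum_congr rfl fun D _ => ?_
    have hfl : ∀ P ∈ D, (rk M (D.erase P) = r + 1 ∧ Us M (D.erase P) P) ↔
        (rk M D = r ∧ ¬ Us M D P) := by
      intro P hP
      have := flip hM hk (D.erase P) P (notMem_erase P D)
      rw [insert_erase hP] at this
      rcases this with ⟨a, b, c⟩ | ⟨a, b, c⟩
      · constructor
        · rintro ⟨h1, _⟩; exact ⟨by omega, b⟩
        · rintro ⟨h1, _⟩; exact ⟨by omega, a⟩
      · constructor
        · rintro ⟨_, h1⟩; exact absurd h1 a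
        · rintro ⟨_, h1⟩; exact absurd b h1
    rw [sum_congr rfl (fun P hP => by rw [if_congr (hfl P hP) rfl rfl])]
    by_cases hr : rk M D = r
    · rw [if_pos hr]
      have e : ∀ P ∈ D, (if rk M D = r ∧ ¬ Us M D P then (1 : ℝ) else 0) =
          1 - (if Us M D P then (1 : ℝ) else 0) := by
        intro P _
        by_cases hu : Us M D P <;> simp [hr, hu]
      rw [sum_congr rfl e, sum_sub_distrib, Uf, card_filter]
      push_cast
      simp
    · rw [if_neg hr]
      refine sum_eq_zero fun P _ => ?_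
      rw [if_neg (fun h' => hr h'.1)]
  rw [← h1, ← h2]
  exact h

open Classical in
/-- Upward edges that gain dimension. -/
lemma edges_up (hM : ∀ m ∈ M, qf m = 0) (hk : finrank (ZMod 2) M = Fintype.card T) (j r : ℕ) :
    ∑ D ∈ (Sl T j).filter (fun D => rk M D = r), ((Dᶜ.card : ℝ) - (Uf M D Dᶜ).card) =
      ∑ D ∈ (Sl T (j + 1)).filter (fun D => rk M D = r + 1), ((Uf M D D).card : ℝ) := by
  have h := sum_edges j (fun D P => if rk M D = r ∧ ¬ Us M D P then (1 : ℝ) else 0)
  have h1 : ∑ D ∈ Sl T j, ∑ P ∈ Dᶜ, (if rk M D = r ∧ ¬ Us M D P then (1 : ℝ) else 0) =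
      ∑ D ∈ (Sl T j).filter (fun D => rk M D = r), ((Dᶜ.card : ℝ) - (Uf M D Dᶜ).card) := by
    rw [sum_filter]
    refine sum_congr rfl fun D _ => ?_
    by_cases hr : rk M D = r
    · rw [if_pos hr]
      have e : ∀ P ∈ Dᶜ, (if rk M D = r ∧ ¬ Us M D P then (1 : ℝ) else 0) =
          1 - (if Us M D P then (1 : ℝ) else 0) := by
        intro P _
        by_cases hu : Us M D P <;> simp [hr, hu]
      rw [sum_congr rfl e, sum_sub_distrib, Uf, card_filter]
      push_cast
      simp
    · rw [if_neg hr]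
      refine sum_eq_zero fun P _ => ?_
      rw [if_neg (fun h' => hr h'.1)]
  have h2 : ∑ D ∈ Sl T (j + 1), ∑ P ∈ D,
      (if rk M (D.erase P) = r ∧ ¬ Us M (D.erase P) P then (1 : ℝ) else 0) =
      ∑ D ∈ (Sl T (j + 1)).filter (fun D => rk M D = r + 1), ((Uf M D D).card : ℝ) := by
    rw [sum_filter]
    refine sum_congr rfl fun D _ => ?_
    have hfl : ∀ P ∈ D, (rk M (D.erase P) = r ∧ ¬ Us M (D.erase P) P) ↔
        (rk M D = r + 1 ∧ Us M D P) := by
      intro P hP
      have := flip hM hk (D.erase P) P (notMem_erase P D)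
      rw [insert_erase hP] at this
      rcases this with ⟨a, b, c⟩ | ⟨a, b, c⟩
      · constructor
        · rintro ⟨_, h1⟩; exact absurd a h1
        · rintro ⟨_, h1⟩; exact absurd h1 b
      · constructor
        · rintro ⟨h1, _⟩; exact ⟨by omega, b⟩
        · rintro ⟨h1, _⟩; exact ⟨by omega, a⟩
    rw [sum_congr rfl (fun P hP => by rw [if_congr (hfl P hP) rfl rfl])]
    by_cases hr : rk M D = r + 1
    · rw [if_pos hr, Uf, card_filter]
      push_cast
      refine sum_congr rfl fun P _ => ?_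
      simp [hr]
    · rw [if_neg hr]
      refine sum_eq_zero fun P _ => ?_
      rw [if_neg (fun h' => hr h'.1)]
  rw [← h1, ← h2]
  exact h

/-- The parity of the dimension of `M ∩ L_D`. -/
lemma rk_parity (hM : ∀ m ∈ M, qf m = 0) (hk : finrank (ZMod 2) M = Fintype.card T)
    (D : Finset T) : rk M D % 2 = (rk M ∅ + D.card) % 2 := by
  induction D using Finset.induction_on with
  | empty => simp
  | insert P D hP ih =>
    rw [card_insert_of_notMem hP]
    rcases flip hM hk D P hP with ⟨_, _, c⟩ | ⟨_, _, c⟩ <;> omega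

end Pool.PRX
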